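import Pool.Agent.W36.SL.Zero
import Pool.Agent.Helper799.PNT

/-! `lam * p lam` converges. -/

set_option autoImplicit false

namespace Pool.Agent.W36.SL

open MeasureTheory Filter Topology Set

/-- `e^w h(w)` -/
noncomputable def eh (w : ℝ) : ℝ := Real.exp w * h w

theorem eh_meas : Measurable eh := Real.measurable_exp.mul h_meas
theorem eh_nonneg (w : ℝ) : 0 ≤ eh w := mul_nonneg (Real.exp_pos _).le (h_nonneg w)
theorem eh_le (w : ℝ) : eh w ≤ Real.exp w := by
  unfold eh
  calc Real.exp w * h w ≤ Real.exp w * 1 := mul_le_mul_of_nonneg_left (h_le_one w) (Real.exp_pos _).le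
    _ = _ := mul_one _

theorem eh_iint (a b : ℝ) : IntervalIntegrable eh volume a b := by
  rw [intervalIntegrable_iff]
  refine Integrable.mono' (g := fun u => Real.exp u) ?_
    eh_meas.aestronglyMeasurable (Eventually.of_forall fun u => ?_)
  · rw [← IntegrableOn, ← intervalIntegrable_iff]
    exact Real.continuous_exp.intervalIntegrable _ _
  · rw [Real.norm_of_nonneg (eh_nonneg u)]; exact eh_le u

/-- `∫_0^u e^w h(w) dw` -/
noncomputable def G (u : ℝ) : ℝ := ∫ w in (0)..u, eh w

theorem G_sub (a b : ℝ) : G b - G a = ∫ w in a..b, eh w :=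
  intervalIntegral.integral_interval_sub_left (eh_iint _ _) (eh_iint _ _)

theorem G_mono : Monotone G := by
  intro a b hab
  have := G_sub a b
  have h2 := intervalIntegral.integral_nonneg (μ := volume) hab fun u _ => eh_nonneg u
  linarith

theorem G_zero : G 0 = 0 := intervalIntegral.integral_same
theorem G_nonneg {u : ℝ} (hu : 0 ≤ u) : 0 ≤ G u := by
  have := G_mono hu; rwa [G_zero] at this
theorem G_le {u : ℝ} (hu : 0 ≤ u) : G u ≤ Real.exp u := by
  have h1 : G u ≤ ∫ w in (0)..u, Real.exp w :=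
    intervalIntegral.integral_mono_on hu (eh_iint _ _) (Real.continuous_exp.intervalIntegrable _ _)
      fun w _ => eh_le w
  rw [integral_exp, Real.exp_zero] at h1
  linarith

/-- `S(x) = ∫_0^(log x) e^w h(w) dw` -/
noncomputable def S (x : ℝ) : ℝ := G (Real.log (max x 1))

theorem S_mono : Monotone S := by
  intro a b hab
  apply G_mono
  exact Real.log_le_log (by positivity) (max_le_max_right _ hab)
theorem S_nonneg (x : ℝ) : 0 ≤ S x := G_nonneg (Real.log_nonneg (le_max_right _ _))
theorem S_le (x : ℝ) (hx : 1 ≤ x) : S x ≤ 1 * x := by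
  unfold S
  rw [max_eq_left hx, one_mul]
  have := G_le (Real.log_nonneg hx)
  rwa [Real.exp_log (by linarith)] at this

open Pool.Agent.Helper799.PNT in
theorem ff_S {u : ℝ} (hu : 0 ≤ u) : ff S u = G u * Real.exp (-u) := by
  unfold ff S
  rw [max_eq_left (Real.one_le_exp hu), Real.log_exp]

/-- the kernel for Fubini -/
noncomputable def Kf (z : ℂ) (u w : ℝ) : ℂ :=
  if w < u then (eh w : ℂ) * Complex.exp (-(1 + z) * u) else 0

theorem Kf_meas (z : ℂ) : Measurable (Function.uncurry (Kf z)) := by
  have : Function.uncurry (Kf z) = fun p : ℝ × ℝ =>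
      if p.2 < p.1 then (eh p.2 : ℂ) * Complex.exp (-(1 + z) * p.1) else 0 := by
    ext p; rfl
  rw [this]
  have h1 : Measurable fun p : ℝ × ℝ => (eh p.2 : ℂ) * Complex.exp (-(1 + z) * p.1) := by
    have h2 : Measurable fun p : ℝ × ℝ => eh p.2 := eh_meas.comp measurable_snd
    fun_prop
  exact Measurable.ite (measurableSet_lt measurable_snd measurable_fst) h1 measurable_const

theorem Kf_norm {z : ℂ} (hz : 0 < z.re) (u w : ℝ) :
    ‖Kf z u w‖ ≤ Real.exp (-(z.re / 2) * u) * Real.exp (-(z.re / 2) * w) := by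
  unfold Kf
  split_ifs with h
  · rw [norm_mul, Complex.norm_real, Real.norm_of_nonneg (eh_nonneg w), Complex.norm_exp]
    have e : (-(1 + z) * (u : ℂ)).re = -(1 + z.re) * u := by simp
    rw [e]
    calc eh w * Real.exp (-(1 + z.re) * u) ≤ Real.exp w * Real.exp (-(1 + z.re) * u) :=
          mul_le_mul_of_nonneg_right (eh_le w) (Real.exp_pos _).le
      _ = Real.exp (w - (1 + z.re) * u) := by rw [← Real.exp_add]; congr 1; ring
      _ ≤ Real.exp (-(z.re / 2) * u + -(z.re / 2) * w) := by
          apply Real.exp_le_exp.2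
          nlinarith
      _ = _ := Real.exp_add _ _
  · rw [norm_zero]; positivity

theorem Kf_int {z : ℂ} (hz : 0 < z.re) : Integrable (Function.uncurry (Kf z))
    ((volume.restrict (Ioi (0 : ℝ))).prod (volume.restrict (Ioi (0 : ℝ)))) := by
  have h1 : IntegrableOn (fun u : ℝ => Real.exp (-(z.re / 2) * u)) (Ioi 0) :=
    integrableOn_exp_mul_Ioi (by linarith) 0
  refine Integrable.mono' (h1.mul_prod h1) (Kf_meas z).aestronglyMeasurable
    (Eventually.of_forall fun p => ?_)
  exact Kf_norm hz p.1 p.2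

open Pool.Agent.Helper799.PNT in
/-- the Laplace transform of `g` -/
theorem Lg_eq {z : ℂ} (hz : 0 < z.re) :
    ∫ u in Ioi (0 : ℝ), ((ff S u : ℝ) : ℂ) * Complex.exp (-z * u) = Lh z / (1 + z) := by
  have h1 : ∫ u in Ioi (0 : ℝ), ((ff S u : ℝ) : ℂ) * Complex.exp (-z * u) =
      ∫ u in Ioi (0 : ℝ), ∫ w in Ioi (0 : ℝ), Kf z u w := by
    refine setIntegral_congr_fun measurableSet_Ioi fun u hu => ?_
    have hu' : (0 : ℝ) < u := hu
    have e1 : ∫ w in Ioi (0 : ℝ), Kf z u w = ∫ w in Ioc 0 u, (eh w : ℂ) * Complex.exp (-(1 + z) * u) := by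
      rw [integral_Ioc_eq_integral_Ioo, ← integral_indicator measurableSet_Ioi,
        ← integral_indicator measurableSet_Ioo]
      congr 1
      ext w
      unfold Kf
      by_cases h0 : 0 < w
      · rw [indicator_of_mem (show w ∈ Ioi 0 from h0)]
        by_cases h2 : w < u
        · rw [if_pos h2, indicator_of_mem (show w ∈ Ioo 0 u from ⟨h0, h2⟩)]
        · rw [if_neg h2, indicator_of_notMem (show w ∉ Ioo 0 u from fun h => h2 h.2)]
      · rw [indicator_of_notMem (show w ∉ Ioi 0 from h0),
          indicator_of_notMem (show w ∉ Ioo 0 u from fun h => h0 h.1)]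
    have e3 : ∫ w in Ioc 0 u, (eh w : ℂ) = ((G u : ℝ) : ℂ) := by
      unfold G
      rw [intervalIntegral.integral_of_le hu'.le]
      exact integral_ofReal
    rw [e1, integral_mul_const, e3]
    rw [ff_S hu'.le]
    push_cast
    rw [mul_assoc, ← Complex.exp_add]
    congr 2
    ring
  have h2 : ∫ w in Ioi (0 : ℝ), ∫ u in Ioi (0 : ℝ), Kf z u w = ∫ w in Ioi (0 : ℝ), F z w / (1 + z) := by
    refine setIntegral_congr_fun measurableSet_Ioi fun w hw => ?_
    have hw' : (0 : ℝ) < w := hw
    have e1 : ∫ u in Ioi (0 : ℝ), Kf z u w = ∫ u in Ioi w, (eh w : ℂ) * Complex.exp (-(1 + z) * u) := by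
      rw [← integral_indicator measurableSet_Ioi, ← integral_indicator measurableSet_Ioi]
      congr 1
      ext u
      unfold Kf
      by_cases h2 : w < u
      · rw [indicator_of_mem (show u ∈ Ioi 0 from hw'.trans h2), if_pos h2,
          indicator_of_mem (show u ∈ Ioi w from h2)]
      · rw [indicator_of_notMem (show u ∉ Ioi w from h2)]
        by_cases h0 : 0 < u
        · rw [indicator_of_mem (show u ∈ Ioi 0 from h0), if_neg h2]
        · rw [indicator_of_notMem (show u ∉ Ioi 0 from h0)]
    have hre : (-(1 + z)).re < 0 := by simp; linarith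
    rw [e1, integral_const_mul, integral_exp_mul_complex_Ioi hre]
    have hne : (1 + z) ≠ 0 := one_add_ne hz.le
    unfold F eh
    have e2 : Complex.exp (w : ℂ) * Complex.exp (-(1 + z) * w) = Complex.exp (-z * w) := by
      rw [← Complex.exp_add]; congr 1; ring
    push_cast
    rw [← e2]
    field_simp
  rw [h1, integral_integral_swap (Kf_int hz), h2, integral_div]
  rfl

end Pool.Agent.W36.SL
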