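import Pool.Agent.W36.SL.Rec
import Pool.Agent.H828R3.Exc.WL

/-! Counting residues with a large excursion. -/

set_option autoImplicit false

namespace Pool.Agent.W36.SL

open Finset Pool.Agent.Helper894.Collatz Pool.Agent.H828R3.Exc

/-- the base of the square root moment -/
noncomputable def b : ℝ := (1 + Real.sqrt 3) / (2 * Real.sqrt 2)

theorem b_pos : 0 < b := by unfold b; positivity
theorem b_le : b ≤ 0.96593 := by
  have h2 : 0 < Real.sqrt 2 := Real.sqrt_pos.2 (by norm_num)
  have h3 : Real.sqrt 3 ≤ 1.7320509 := by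
    rw [Real.sqrt_le_left (by norm_num)]; norm_num
  have h2' : 1.4142135 ≤ Real.sqrt 2 := Real.le_sqrt_of_sq_le (by norm_num)
  unfold b
  rw [div_le_iff₀ (by positivity)]
  nlinarith
theorem b_lt_one : b < 1 := b_le.trans_lt (by norm_num)
theorem b_pow : b ^ 20 ≤ 1 / 2 :=
  (pow_le_pow_left₀ b_pos.le b_le 20).trans (by norm_num)

theorem b_rpow (J : ℕ) : b ^ J ≤ ((2 : ℝ) ^ J) ^ (-(1 / 20) : ℝ) := by
  have h0 := b_pos
  have h1 : b ≤ (2 : ℝ) ^ (-(1 / 20) : ℝ) := by
    have h2 : b = (b ^ 20) ^ ((1 : ℝ) / 20) := by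
      rw [← Real.rpow_natCast b 20, ← Real.rpow_mul h0.le]; norm_num
    rw [h2]
    have h3 : ((2 : ℝ)) ^ (-(1 / 20) : ℝ) = (1 / 2 : ℝ) ^ ((1 : ℝ) / 20) := by
      rw [one_div 2, Real.inv_rpow (by norm_num), Real.rpow_neg (by norm_num)]
    rw [h3]
    exact Real.rpow_le_rpow (by positivity) b_pow (by norm_num)
  calc b ^ J ≤ ((2 : ℝ) ^ (-(1 / 20) : ℝ)) ^ J := pow_le_pow_left₀ h0.le h1 J
    _ = ((2 : ℝ) ^ J) ^ (-(1 / 20) : ℝ) := by
      rw [← Real.rpow_natCast, ← Real.rpow_natCast, ← Real.rpow_mul (by norm_num),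
        ← Real.rpow_mul (by norm_num), mul_comm]

theorem s_sub_q (K : ℕ) : ∀ lam : ℝ, 0 < lam → s K lam - q lam ≤ b ^ K / Real.sqrt lam := by
  induction K with
  | zero =>
    intro lam h0
    rw [pow_zero]
    have hs : 0 < Real.sqrt lam := Real.sqrt_pos.2 h0
    by_cases h : 1 < lam
    · have h1 : s 0 lam = 1 := by simp [s, h]
      have h2 := q_ge h0
      have h3 : 1 / lam ≤ 1 / Real.sqrt lam := by
        apply one_div_le_one_div_of_le hs
        rw [Real.sqrt_le_left h0.le]
        nlinarith
      rw [h1]; linarith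
    · rw [s_zero_of_le _ (not_lt.1 h), q_zero_of_le (not_lt.1 h)]
      simp only [sub_zero]; positivity
  | succ K ih =>
    intro lam h0
    have hs : 0 < Real.sqrt lam := Real.sqrt_pos.2 h0
    have hb := b_pos
    by_cases h : 1 < lam
    · rw [s_succ K h, q_rec h]
      have e1 := ih (2 * lam / 3) (by positivity)
      have e2 := ih (2 * lam) (by positivity)
      have h2 : 0 < Real.sqrt 2 := Real.sqrt_pos.2 (by norm_num)
      have h3 : 0 < Real.sqrt 3 := Real.sqrt_pos.2 (by norm_num)
      have f1 : Real.sqrt (2 * lam / 3) = Real.sqrt 2 * Real.sqrt lam / Real.sqrt 3 := by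
        rw [Real.sqrt_div (by positivity), Real.sqrt_mul (by norm_num)]
      have f2 : Real.sqrt (2 * lam) = Real.sqrt 2 * Real.sqrt lam := by
        rw [Real.sqrt_mul (by norm_num)]
      rw [f1] at e1
      rw [f2] at e2
      have e3 : b ^ (K + 1) / Real.sqrt lam = (b ^ K / (Real.sqrt 2 * Real.sqrt lam / Real.sqrt 3)
          + b ^ K / (Real.sqrt 2 * Real.sqrt lam)) / 2 := by
        rw [pow_succ]
        have : b = (1 + Real.sqrt 3) / (2 * Real.sqrt 2) := rfl
        generalize b ^ K = B
        rw [this]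
        field_simp
        ring
      rw [e3]
      linarith
    · rw [s_zero_of_le _ (not_lt.1 h), q_zero_of_le (not_lt.1 h)]
      simp only [sub_zero]; positivity

theorem od_one (j n : ℕ) : od (j + 1) n = n % 2 + od j (T n) := by
  have h := od_add 1 j n
  rw [add_comm j 1, h]
  congr 1

theorem T_two_mul (m : ℕ) : T (2 * m) = m := by
  unfold T; rw [if_pos (by omega)]; omega
theorem T_two_mul_add (m : ℕ) : T (2 * m + 1) = 3 * m + 2 := by
  unfold T; rw [if_neg (by omega)]; omega

theorem PP_even (lam : ℝ) (J m : ℕ) : PP lam (J + 1) (2 * m) ↔ lam ≤ 1 ∨ PP (2 * lam) J m := by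
  unfold PP
  constructor
  · rintro ⟨j, hj, h⟩
    rcases j with _ | j
    · left; simpa [od] using h
    · right
      refine ⟨j, by omega, ?_⟩
      rw [od_one, T_two_mul, pow_succ] at h
      have : 2 * m % 2 = 0 := by omega
      rw [this, zero_add] at h
      linarith
  · rintro (h | ⟨j, hj, h⟩)
    · exact ⟨0, by omega, by simpa [od] using h⟩
    · refine ⟨j + 1, by omega, ?_⟩
      rw [od_one, T_two_mul, pow_succ]
      have : 2 * m % 2 = 0 := by omega
      rw [this, zero_add]
      linarith

theorem PP_odd (lam : ℝ) (J m : ℕ) :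
    PP lam (J + 1) (2 * m + 1) ↔ lam ≤ 1 ∨ PP (2 * lam / 3) J (3 * m + 2) := by
  unfold PP
  have e : (2 * m + 1) % 2 = 1 := by omega
  constructor
  · rintro ⟨j, hj, h⟩
    rcases j with _ | j
    · left; simpa [od] using h
    · right
      refine ⟨j, by omega, ?_⟩
      rw [od_one, T_two_mul_add, pow_succ, e, pow_add] at h
      linarith
  · rintro (h | ⟨j, hj, h⟩)
    · exact ⟨0, by omega, by simpa [od] using h⟩
    · refine ⟨j + 1, by omega, ?_⟩
      rw [od_one, T_two_mul_add, pow_succ, e, pow_add]
      linarith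

theorem sum_range_two_mul (N : ℕ) (f : ℕ → ℝ) :
    ∑ n ∈ range (2 * N), f n = ∑ m ∈ range N, (f (2 * m) + f (2 * m + 1)) := by
  induction N with
  | zero => simp
  | succ N ih =>
    rw [show 2 * (N + 1) = 2 * N + 1 + 1 by ring, sum_range_succ, sum_range_succ, ih, sum_range_succ]
    ring

theorem sum_perm (J : ℕ) (f : ℕ → ℝ) (hf : ∀ x, f (x % 2 ^ J) = f x) :
    ∑ m ∈ range (2 ^ J), f (3 * m + 2) = ∑ m ∈ range (2 ^ J), f m := by
  classical
  have hN : 0 < 2 ^ J := by positivity
  have hinj : Set.InjOn (fun m => (3 * m + 2) % 2 ^ J) (range (2 ^ J) : Set ℕ) := by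
    intro a ha c hc h
    rw [mem_coe, mem_range] at ha hc
    have h1 : 3 * a + 2 ≡ 3 * c + 2 [MOD 2 ^ J] := h
    have h2 : 3 * a ≡ 3 * c [MOD 2 ^ J] := Nat.ModEq.add_right_cancel' 2 h1
    have h3 : a ≡ c [MOD 2 ^ J] :=
      Nat.ModEq.cancel_left_of_coprime (Nat.Coprime.pow_left _ (by norm_num)) h2
    rwa [Nat.ModEq, Nat.mod_eq_of_lt ha, Nat.mod_eq_of_lt hc] at h3
  have himg : (range (2 ^ J)).image (fun m => (3 * m + 2) % 2 ^ J) = range (2 ^ J) := by
    apply eq_of_subset_of_card_le
    · intro y hy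
      rw [mem_image] at hy
      obtain ⟨m, _, rfl⟩ := hy
      exact mem_range.2 (Nat.mod_lt _ hN)
    · rw [card_image_of_injOn hinj]
  calc ∑ m ∈ range (2 ^ J), f (3 * m + 2)
      = ∑ m ∈ range (2 ^ J), f ((3 * m + 2) % 2 ^ J) := sum_congr rfl fun m _ => (hf _).symm
    _ = ∑ y ∈ (range (2 ^ J)).image (fun m => (3 * m + 2) % 2 ^ J), f y := by
        rw [sum_image hinj]
    _ = _ := by rw [himg]

theorem PP_mod (lam : ℝ) (J x : ℕ) : PP lam J (x % 2 ^ J) ↔ PP lam J x := by
  have h := PP_shift lam J (x % 2 ^ J) (x / 2 ^ J)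
  rw [Nat.mod_add_div] at h
  exact h.symm

open scoped Classical in
theorem sum_not_PP (J : ℕ) : ∀ lam : ℝ,
    ∑ n ∈ range (2 ^ J), (if PP lam J n then (0 : ℝ) else 1) = 2 ^ J * s J lam := by
  induction J with
  | zero =>
    intro lam
    rw [pow_zero, range_one, sum_singleton, pow_zero, one_mul]
    have : PP lam 0 0 ↔ lam ≤ 1 := by
      unfold PP
      constructor
      · rintro ⟨j, hj, h⟩
        have : j = 0 := by omega
        subst this
        simpa [od] using h
      · intro h
        exact ⟨0, le_rfl, by simpa [od] using h⟩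
    unfold s
    by_cases h : lam ≤ 1
    · rw [if_pos (this.2 h), if_neg (not_lt.2 h)]
    · rw [if_neg (fun h' => h (this.1 h')), if_pos (not_le.1 h)]
  | succ J ih =>
    intro lam
    by_cases h : lam ≤ 1
    · rw [s_zero_of_le _ h, mul_zero]
      apply sum_eq_zero
      intro n _
      rw [if_pos ⟨0, by omega, by simpa [od] using h⟩]
    · have h1 : 1 < lam := not_le.1 h
      rw [s_succ J h1, pow_succ, mul_comm (2 ^ J) 2, sum_range_two_mul, sum_add_distrib]
      have e1 : ∑ m ∈ range (2 ^ J), (if PP lam (J + 1) (2 * m) then (0 : ℝ) else 1)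
          = 2 ^ J * s J (2 * lam) := by
        rw [← ih]
        apply sum_congr rfl
        intro m _
        have := PP_even lam J m
        by_cases h2 : PP (2 * lam) J m
        · rw [if_pos h2, if_pos (this.2 (Or.inr h2))]
        · rw [if_neg h2, if_neg (fun h' => (this.1 h').elim h h2)]
      have e2 : ∑ m ∈ range (2 ^ J), (if PP lam (J + 1) (2 * m + 1) then (0 : ℝ) else 1)
          = 2 ^ J * s J (2 * lam / 3) := by
        rw [← ih, ← sum_perm J (fun n => if PP (2 * lam / 3) J n then (0 : ℝ) else 1)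
          (fun x => by simp only [PP_mod])]
        apply sum_congr rfl
        intro m _
        have := PP_odd lam J m
        by_cases h2 : PP (2 * lam / 3) J (3 * m + 2)
        · rw [if_pos h2, if_pos (this.2 (Or.inr h2))]
        · rw [if_neg h2, if_neg (fun h' => (this.1 h').elim h h2)]
      rw [e1, e2, pow_succ]
      ring

open scoped Classical in
theorem card_PP (J : ℕ) (lam : ℝ) :
    (((range (2 ^ J)).filter fun n => PP lam J n).card : ℝ) = 2 ^ J * (1 - s J lam) := by
  have h := sum_not_PP J lam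
  have h1 : (((range (2 ^ J)).filter fun n => PP lam J n).card : ℝ)
      = ∑ n ∈ range (2 ^ J), (if PP lam J n then (1 : ℝ) else 0) := by
    rw [sum_ite, sum_const_zero, add_zero, sum_const, nsmul_eq_mul, mul_one]
  have h2 : ∑ n ∈ range (2 ^ J), (if PP lam J n then (1 : ℝ) else 0)
      + ∑ n ∈ range (2 ^ J), (if PP lam J n then (0 : ℝ) else 1) = 2 ^ J := by
    rw [← sum_add_distrib]
    have : ∀ n ∈ range (2 ^ J), (if PP lam J n then (1 : ℝ) else 0)
        + (if PP lam J n then (0 : ℝ) else 1) = 1 := by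
      intro n _; split_ifs <;> norm_num
    rw [sum_congr rfl this, sum_const, card_range, nsmul_eq_mul, mul_one]
    push_cast; rfl
  rw [h1]; linarith

/-- counting a periodic set in an initial interval -/
theorem card_periodic {M : ℕ} (hM : 0 < M) (P : ℕ → Prop) [DecidablePred P]
    (hP : ∀ x c, P (x + M * c) ↔ P x) (N : ℕ) :
    (((range N).filter P).card : ℝ) ≤ (N / M + 1) * (((range M).filter P).card : ℝ) ∧
    ((N : ℝ) / M - 1) * (((range M).filter P).card : ℝ) ≤ (((range N).filter P).card : ℝ) := by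
  have key : ∀ a, ((range (M * a)).filter P).card = a * ((range M).filter P).card := by
    intro a
    induction a with
    | zero => simp
    | succ a ih =>
      have h1 : range (M * (a + 1)) = range (M * a) ∪ (range M).image (fun x => x + M * a) := by
        ext y
        simp only [mem_union, mem_range, mem_image]
        constructor
        · intro hy
          rcases Nat.lt_or_ge y (M * a) with h | h
          · exact Or.inl h
          · right
            refine ⟨y - M * a, ?_, by omega⟩
            rw [mul_add, mul_one] at hy; omega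
        · rintro (h | ⟨x, hx, rfl⟩)
          · rw [mul_add, mul_one]; omega
          · rw [mul_add, mul_one]; omega
      rw [h1, filter_union, card_union_of_disjoint, ih, filter_image, card_image_of_injective]
      · have : (range M).filter (fun x => P (x + M * a)) = (range M).filter P := by
          apply filter_congr
          intro x _
          exact hP x a
        rw [this]; ring
      · intro x y h; simpa using h
      · rw [disjoint_left]
        intro y hy hy'
        rw [mem_filter, mem_range] at hy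
        rw [mem_filter, mem_image] at hy'
        obtain ⟨⟨x, _, rfl⟩, _⟩ := hy'
        omega
  have hMR : (0 : ℝ) < M := by exact_mod_cast hM
  have hdm := Nat.div_add_mod N M
  have hml := Nat.mod_lt N hM
  set a := N / M with ha
  have hsub1 : (range (M * a)).filter P ⊆ (range N).filter P :=
    filter_subset_filter _ (range_subset_range.2 (by omega))
  have hsub2 : (range N).filter P ⊆ (range (M * (a + 1))).filter P :=
    filter_subset_filter _ (range_subset_range.2 (by rw [mul_add, mul_one]; omega))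
  have h1 := card_le_card hsub1
  have h2 := card_le_card hsub2
  rw [key] at h1 h2
  have h1' : (a : ℝ) * (((range M).filter P).card : ℝ) ≤ (((range N).filter P).card : ℝ) := by
    exact_mod_cast h1
  have h2' : (((range N).filter P).card : ℝ) ≤ ((a : ℝ) + 1) * (((range M).filter P).card : ℝ) := by
    exact_mod_cast h2
  have hc0 : (0 : ℝ) ≤ (((range M).filter P).card : ℝ) := Nat.cast_nonneg _
  have ha1 : (a : ℝ) ≤ N / M := by
    rw [le_div_iff₀ hMR]
    have : a * M ≤ N := by rw [mul_comm]; omega
    exact_mod_cast this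
  have ha2 : (N : ℝ) / M < a + 1 := by
    rw [div_lt_iff₀ hMR]
    have : N < (a + 1) * M := by rw [add_mul, one_mul, mul_comm a M]; omega
    exact_mod_cast this
  constructor
  · exact h2'.trans (mul_le_mul_of_nonneg_right (by linarith) hc0)
  · exact le_trans (mul_le_mul_of_nonneg_right (by linarith) hc0) h1'

/-- the square root moment -/
theorem sum_sqrt (J : ℕ) : ∑ n ∈ range (2 ^ J), Real.sqrt (MM J n) = 2 ^ J * b ^ J := by
  have e : ∀ n ∈ range (2 ^ J), Real.sqrt (MM J n) = (Real.sqrt 3) ^ od J n / (Real.sqrt 2) ^ J := by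
    intro n _
    unfold MM
    rw [Real.sqrt_div (by positivity)]
    congr 1
    · rw [Real.sqrt_eq_iff_mul_self_eq (by positivity) (by positivity), ← mul_pow,
        Real.mul_self_sqrt (by norm_num)]
    · rw [Real.sqrt_eq_iff_mul_self_eq (by positivity) (by positivity), ← mul_pow,
        Real.mul_self_sqrt (by norm_num)]
  rw [sum_congr rfl e, ← sum_div, sum_pow_od, ← div_pow, ← mul_pow]
  congr 1
  have h2 : 0 < Real.sqrt 2 := Real.sqrt_pos.2 (by norm_num)
  unfold b
  field_simp

/-- few residues have a product `≥ mu` -/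
theorem card_MM (J : ℕ) {mu : ℝ} (hmu : 0 < mu) [DecidablePred fun n => mu ≤ MM J n] :
    (((range (2 ^ J)).filter fun n => mu ≤ MM J n).card : ℝ) ≤ 2 ^ J * b ^ J / Real.sqrt mu := by
  have hs : 0 < Real.sqrt mu := Real.sqrt_pos.2 hmu
  rw [le_div_iff₀ hs, ← sum_sqrt, ← nsmul_eq_mul]
  calc ((range (2 ^ J)).filter fun n => mu ≤ MM J n).card • Real.sqrt mu
      ≤ ∑ n ∈ (range (2 ^ J)).filter (fun n => mu ≤ MM J n), Real.sqrt (MM J n) := by
        apply card_nsmul_le_sum
        intro n hn
        exact Real.sqrt_le_sqrt (mem_filter.1 hn).2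
    _ ≤ _ := sum_le_sum_of_subset_of_nonneg (filter_subset _ _) fun _ _ _ => Real.sqrt_nonneg _

end Pool.Agent.W36.SL
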