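import Pool.Agent.W36.SL.Cnt

/-! Residues with a dip followed by a large value. -/

set_option autoImplicit false

namespace Pool.Agent.W36.SL

open Finset Pool.Agent.Helper894.Collatz Pool.Agent.H828R3.Exc

theorem sum_block (k e : ℕ) (f : ℕ → ℝ) (hf : ∀ x c, f (x + 2 ^ k * c) = f x) :
    ∑ n ∈ range (2 ^ (k + e)), f n = 2 ^ e * ∑ n ∈ range (2 ^ k), f n := by
  induction e with
  | zero => simp
  | succ e ih =>
    rw [← add_assoc, pow_succ, mul_two, sum_range_add, ih]
    have : ∑ x ∈ range (2 ^ (k + e)), f (2 ^ (k + e) + x) = ∑ x ∈ range (2 ^ (k + e)), f x := by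
      apply sum_congr rfl
      intro x _
      rw [add_comm, pow_add, hf]
    rw [this, ih, pow_succ]
    ring

theorem MM_shift {j J : ℕ} (h : j ≤ J) (x c : ℕ) : MM j (x + 2 ^ J * c) = MM j x := by
  unfold MM; rw [od_shift_le h]

theorem sum_MM_ind (j d : ℕ) (mu : ℝ) :
    ∑ n ∈ range (2 ^ (j + d)), (if MM j n ≤ mu then MM (j + d) n else 0) =
      2 ^ d * ∑ n ∈ range (2 ^ j), (if MM j n ≤ mu then MM j n else 0) := by
  induction d with
  | zero => simp
  | succ d ih =>
    rw [← add_assoc, pow_succ, mul_two, sum_range_add, ← sum_add_distrib, pow_succ, mul_comm (2 ^ d) 2,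
      mul_assoc, ← ih, mul_sum]
    apply sum_congr rfl
    intro x _
    have h1 : MM j (2 ^ (j + d) + x) = MM j x := by
      have := MM_shift (show j ≤ j + d by omega) x 1
      rwa [mul_one, add_comm] at this
    have h2 := (MM_children (j + d) x).1
    rw [add_comm (2 ^ (j + d)) x] at h1 ⊢
    rw [h1]
    split_ifs
    · exact h2
    · ring

theorem sum_MM_le {j k J : ℕ} (hjk : j ≤ k) (hkJ : k ≤ J) {mu : ℝ} (hmu : 0 ≤ mu) :
    ∑ n ∈ range (2 ^ J), (if MM j n ≤ mu then MM k n else 0) ≤ 2 ^ J * mu := by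
  obtain ⟨d, rfl⟩ := Nat.exists_eq_add_of_le hjk
  obtain ⟨e, rfl⟩ := Nat.exists_eq_add_of_le hkJ
  rw [sum_block (j + d) e (fun n => if MM j n ≤ mu then MM (j + d) n else 0) (fun x c => by
    rw [MM_shift (show j ≤ j + d by omega), MM_shift le_rfl]), sum_MM_ind]
  have h : ∑ n ∈ range (2 ^ j), (if MM j n ≤ mu then MM j n else 0) ≤ ∑ n ∈ range (2 ^ j), mu := by
    apply sum_le_sum
    intro n _
    split_ifs with h
    · exact h
    · exact hmu
  rw [sum_const, card_range, nsmul_eq_mul] at h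
  push_cast at h
  calc (2 : ℝ) ^ e * (2 ^ d * ∑ n ∈ range (2 ^ j), (if MM j n ≤ mu then MM j n else 0))
      ≤ 2 ^ e * (2 ^ d * (2 ^ j * mu)) := by
        apply mul_le_mul_of_nonneg_left _ (by positivity)
        exact mul_le_mul_of_nonneg_left h (by positivity)
    _ = _ := by rw [pow_add, pow_add]; ring

open scoped Classical in
theorem card_pair {j k J : ℕ} (hjk : j ≤ k) (hkJ : k ≤ J) {mu lam : ℝ} (hmu : 0 ≤ mu) (hlam : 0 < lam) :
    (((range (2 ^ J)).filter fun n => MM j n ≤ mu ∧ lam ≤ MM k n).card : ℝ) ≤ 2 ^ J * mu / lam := by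
  rw [le_div_iff₀ hlam, ← nsmul_eq_mul]
  refine le_trans ?_ (sum_MM_le hjk hkJ hmu)
  calc ((range (2 ^ J)).filter fun n => MM j n ≤ mu ∧ lam ≤ MM k n).card • lam
      ≤ ∑ n ∈ (range (2 ^ J)).filter (fun n => MM j n ≤ mu ∧ lam ≤ MM k n),
          (if MM j n ≤ mu then MM k n else 0) := by
        apply card_nsmul_le_sum
        intro n hn
        rw [mem_filter] at hn
        rw [if_pos hn.2.1]
        exact hn.2.2
    _ ≤ _ := by
        apply sum_le_sum_of_subset_of_nonneg (filter_subset _ _)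
        intro n _ _
        split_ifs
        · exact (MM_pos _ _).le
        · exact le_rfl

/-- a dip to `mu` and later a value `≥ lam` -/
def Dip (mu lam : ℝ) (J n : ℕ) : Prop := ∃ k ≤ J, ∃ j ≤ k, MM j n ≤ mu ∧ lam ≤ MM k n

theorem Dip_shift (mu lam : ℝ) (J x c : ℕ) : Dip mu lam J (x + 2 ^ J * c) ↔ Dip mu lam J x := by
  unfold Dip
  constructor
  · rintro ⟨k, hk, j, hj, h⟩
    refine ⟨k, hk, j, hj, ?_⟩
    rwa [MM_shift (hj.trans hk), MM_shift hk] at h
  · rintro ⟨k, hk, j, hj, h⟩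
    refine ⟨k, hk, j, hj, ?_⟩
    rwa [MM_shift (hj.trans hk), MM_shift hk]

open scoped Classical in
theorem card_Dip (J : ℕ) {mu lam : ℝ} (hmu : 0 ≤ mu) (hlam : 0 < lam) :
    (((range (2 ^ J)).filter fun n => Dip mu lam J n).card : ℝ) ≤ (J + 1) ^ 2 * (2 ^ J * mu / lam) := by
  have hsub : (range (2 ^ J)).filter (fun n => Dip mu lam J n) ⊆
      (range (J + 1)).biUnion (fun k => (range (k + 1)).biUnion fun j =>
        (range (2 ^ J)).filter fun n => MM j n ≤ mu ∧ lam ≤ MM k n) := by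
    intro n hn
    rw [mem_filter] at hn
    obtain ⟨h1, k, hk, j, hj, h⟩ := hn
    rw [mem_biUnion]
    refine ⟨k, mem_range.2 (by omega), ?_⟩
    rw [mem_biUnion]
    exact ⟨j, mem_range.2 (by omega), mem_filter.2 ⟨h1, h⟩⟩
  have h1 : (((range (2 ^ J)).filter fun n => Dip mu lam J n).card : ℝ) ≤
      ∑ k ∈ range (J + 1), ∑ j ∈ range (k + 1),
        (((range (2 ^ J)).filter fun n => MM j n ≤ mu ∧ lam ≤ MM k n).card : ℝ) := by
    have h2 := (card_le_card hsub).trans card_biUnion_le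
    have h3 := h2.trans (sum_le_sum fun k _ => card_biUnion_le)
    exact_mod_cast h3
  refine h1.trans ?_
  have h0 : 0 ≤ 2 ^ J * mu / lam := by positivity
  calc ∑ k ∈ range (J + 1), ∑ j ∈ range (k + 1),
        (((range (2 ^ J)).filter fun n => MM j n ≤ mu ∧ lam ≤ MM k n).card : ℝ)
      ≤ ∑ k ∈ range (J + 1), ∑ j ∈ range (k + 1), (2 ^ J * mu / lam) := by
        apply sum_le_sum
        intro k hk
        apply sum_le_sum
        intro j hj
        rw [mem_range] at hk hj
        exact card_pair (by omega) (by omega) hmu hlam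
    _ ≤ ∑ k ∈ range (J + 1), ((J + 1 : ℕ) : ℝ) * (2 ^ J * mu / lam) := by
        apply sum_le_sum
        intro k hk
        rw [mem_range] at hk
        rw [sum_const, card_range, nsmul_eq_mul]
        apply mul_le_mul_of_nonneg_right _ h0
        exact_mod_cast (by omega : k + 1 ≤ J + 1)
    _ = _ := by
        rw [sum_const, card_range, nsmul_eq_mul]; push_cast; ring

end Pool.Agent.W36.SL
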