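import Pool.Agent.W36.SL.Rec

/-! Laplace transform of `e^u p(e^u)`. -/

set_option autoImplicit false

namespace Pool.Agent.W36.SL

open MeasureTheory Filter Topology Set

/-- `e^u p(e^u)` -/
noncomputable def h (u : ℝ) : ℝ := Real.exp u * p (Real.exp u)

/-- `log (3/2)` -/
noncomputable def l1 : ℝ := Real.log (3 / 2)
/-- `log 2` -/
noncomputable def l2 : ℝ := Real.log 2

theorem l1_pos : 0 < l1 := Real.log_pos (by norm_num)
theorem l2_pos : 0 < l2 := Real.log_pos (by norm_num)
theorem exp_l1 : Real.exp l1 = 3 / 2 := Real.exp_log (by norm_num)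
theorem exp_l2 : Real.exp l2 = 2 := Real.exp_log (by norm_num)

theorem h_nonneg (u : ℝ) : 0 ≤ h u := mul_nonneg (Real.exp_pos _).le (p_nonneg _)
theorem h_le_one (u : ℝ) : h u ≤ 1 := mul_p_le (Real.exp_pos _).le
theorem h_neg {u : ℝ} (hu : u ≤ 0) : h u = Real.exp u := by
  unfold h; rw [p_one_of_le (Real.exp_le_one_iff.2 hu), mul_one]
theorem h_meas : Measurable h := by
  unfold h
  exact Real.measurable_exp.mul (p_anti.measurable.comp Real.measurable_exp)

theorem h_rec {u : ℝ} (hu : 0 < u) : h u = 3 / 4 * h (u - l1) + 1 / 4 * h (u + l2) := by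
  unfold h
  have e1 : Real.exp (u - l1) = 2 * Real.exp u / 3 := by
    rw [Real.exp_sub, exp_l1]; field_simp
  have e2 : Real.exp (u + l2) = 2 * Real.exp u := by
    rw [Real.exp_add, exp_l2]; ring
  rw [e1, e2, p_rec (Real.one_lt_exp_iff.2 hu)]
  ring

/-- the integrand -/
noncomputable def F (z : ℂ) (u : ℝ) : ℂ := (h u : ℂ) * Complex.exp (-z * u)

theorem F_meas (z : ℂ) : Measurable (F z) := by
  unfold F
  have := h_meas
  fun_prop

theorem F_norm (z : ℂ) (u : ℝ) : ‖F z u‖ ≤ Real.exp (-z.re * u) := by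
  unfold F
  rw [norm_mul, Complex.norm_real, Complex.norm_exp, Real.norm_of_nonneg (h_nonneg u)]
  have e : (-z * (u : ℂ)).re = -z.re * u := by simp
  rw [e]
  calc h u * Real.exp (-z.re * u) ≤ 1 * Real.exp (-z.re * u) :=
        mul_le_mul_of_nonneg_right (h_le_one u) (Real.exp_pos _).le
    _ = _ := one_mul _

theorem F_int {z : ℂ} (hz : 0 < z.re) (a : ℝ) : IntegrableOn (F z) (Ioi a) := by
  refine Integrable.mono' (g := fun u => Real.exp (-z.re * u))
    (integrableOn_exp_mul_Ioi (by linarith) a) (F_meas z).aestronglyMeasurable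
    (Eventually.of_forall fun u => F_norm z u)

theorem F_iint (z : ℂ) (a b : ℝ) : IntervalIntegrable (F z) volume a b := by
  rw [intervalIntegrable_iff]
  refine Integrable.mono' (g := fun u => Real.exp (-z.re * u)) ?_
    (F_meas z).aestronglyMeasurable (Eventually.of_forall fun u => F_norm z u)
  rw [← IntegrableOn, ← intervalIntegrable_iff]
  exact (by fun_prop : Continuous fun u : ℝ => Real.exp (-z.re * u)).intervalIntegrable _ _

/-- Laplace transform -/
noncomputable def Lh (z : ℂ) : ℂ := ∫ u in Ioi (0 : ℝ), F z u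
noncomputable def E1 (z : ℂ) : ℂ := ∫ v in (-l1)..0, F z v
noncomputable def E2 (z : ℂ) : ℂ := ∫ v in (0)..l2, F z v
noncomputable def D (z : ℂ) : ℂ := 1 - 3 / 4 * Complex.exp (-z * l1) - 1 / 4 * Complex.exp (z * l2)
noncomputable def N (z : ℂ) : ℂ :=
  3 / 4 * Complex.exp (-z * l1) * E1 z - 1 / 4 * Complex.exp (z * l2) * E2 z

theorem shift_Ioi (f : ℝ → ℂ) (a c : ℝ) :
    ∫ u in Ioi a, f (u + c) = ∫ v in Ioi (a + c), f v := by
  rw [← integral_indicator measurableSet_Ioi, ← integral_indicator measurableSet_Ioi,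
    ← integral_add_right_eq_self (μ := volume) (fun v => (Ioi (a + c)).indicator f v) c]
  congr 1
  ext u
  by_cases hu : a < u
  · rw [indicator_of_mem (show u ∈ Ioi a from hu),
      indicator_of_mem (show u + c ∈ Ioi (a + c) from by simpa using hu)]
  · rw [indicator_of_notMem (show u ∉ Ioi a from hu),
      indicator_of_notMem (show u + c ∉ Ioi (a + c) from by simpa using hu)]

theorem F_int_shift {z : ℂ} (hz : 0 < z.re) (c : ℝ) :
    IntegrableOn (fun u => F z (u + c)) (Ioi 0) := by
  refine Integrable.mono' (g := fun u => Real.exp (-z.re * c) * Real.exp (-z.re * u))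
    ((integrableOn_exp_mul_Ioi (by linarith) 0).const_mul _)
    ((F_meas z).comp (measurable_add_const c)).aestronglyMeasurable
    (Eventually.of_forall fun u => ?_)
  refine (F_norm z (u + c)).trans (le_of_eq ?_)
  rw [← Real.exp_add]; congr 1; ring

theorem F_shift (z : ℂ) (c u : ℝ) :
    (h (u + c) : ℂ) * Complex.exp (-z * u) = Complex.exp (z * c) * F z (u + c) := by
  unfold F
  have : Complex.exp (z * c) * Complex.exp (-z * ((u + c : ℝ) : ℂ)) = Complex.exp (-z * u) := by
    rw [← Complex.exp_add]; congr 1; push_cast; ring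
  linear_combination -(h (u + c) : ℂ) * this

theorem Lh_eq {z : ℂ} (hz : 0 < z.re) : Lh z * D z = N z := by
  have h1 : Lh z = 3 / 4 * (Complex.exp (z * ((-l1 : ℝ) : ℂ)) * ∫ u in Ioi (0 : ℝ), F z (u + -l1))
      + 1 / 4 * (Complex.exp (z * (l2 : ℂ)) * ∫ u in Ioi (0 : ℝ), F z (u + l2)) := by
    rw [← integral_const_mul, ← integral_const_mul, ← integral_const_mul, ← integral_const_mul,
      ← integral_add]
    · unfold Lh
      refine setIntegral_congr_fun measurableSet_Ioi fun u hu => ?_
      rw [← F_shift, ← F_shift]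
      unfold F
      rw [h_rec hu, sub_eq_add_neg]
      push_cast
      ring
    · refine Integrable.const_mul (Integrable.const_mul ?_ _) _
      exact F_int_shift hz _
    · refine Integrable.const_mul (Integrable.const_mul ?_ _) _
      exact F_int_shift hz _
  rw [shift_Ioi, shift_Ioi] at h1
  have h2 : ∫ v in Ioi (0 + -l1), F z v = E1 z + Lh z := by
    unfold E1 Lh
    rw [intervalIntegral.integral_interval_add_Ioi (F_int hz _) (F_int hz _), zero_add]
  have h3 : Lh z = E2 z + ∫ v in Ioi (0 + l2), F z v := by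
    unfold E2 Lh
    rw [zero_add, intervalIntegral.integral_interval_add_Ioi (F_int hz _) (F_int hz _)]
  have h4 : ∫ v in Ioi (0 + l2), F z v = Lh z - E2 z := by rw [h3]; ring
  rw [h2, h4] at h1
  have e : z * ((-l1 : ℝ) : ℂ) = -z * l1 := by push_cast; ring
  rw [e] at h1
  unfold D N
  linear_combination h1

end Pool.Agent.W36.SL
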