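import Pool.Agent.W36.SL.Dip
import Pool.Agent.H828R3.Exc.UpR

/-! Few starting points exceed `V` after a dip. -/

set_option autoImplicit false

namespace Pool.Agent.W36.SL

open Finset Pool.Agent.Helper894.Collatz Pool.Agent.H828R3.Exc Pool.Agent.H377R2 Pool.Agent.H319R2.Lln

open scoped Classical in
theorem card_pass_Big {V : ℝ} (hV : 0 < V) {k i : ℕ} (hik : i ≤ k) (hM : 2 * (k * k) ≤ 2 ^ i) :
    (((range (2 ^ k)).filter
      (fun x => 0 < x ∧ ∃ m ≤ k * k, FP i m x ∧ T^[m] x ∈ Big V i)).card : ℝ) ≤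
      (4 * (k + 1) * (k * k + 2) ^ 2 * 2 ^ k / V) * 2 ^ i := by
  have a1 := card_passage k i (k * k) hik hM (Big V i) (fun y hy => (mem_Big.1 hy).2.1)
  have a2 := card_Big V hV i
  have a3 : ((((range (2 ^ k)).filter
    (fun x => 0 < x ∧ ∃ m ≤ k * k, FP i m x ∧ T^[m] x ∈ Big V i)).card : ℕ) : ℝ) ≤
      (Big V i).card * (((k * k : ℕ) + 1) * (((k * k : ℕ) + 2) * 2 ^ (k - i + 2))) := by
    exact_mod_cast a1
  push_cast at a3
  refine a3.trans ?_
  have a4 : (4 : ℝ) ^ i * 2 ^ (k - i + 2) = 4 * 2 ^ k * 2 ^ i := by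
    have h5 : (4 : ℝ) ^ i = 2 ^ i * 2 ^ i := by rw [← mul_pow]; norm_num
    have h6 : (2 : ℝ) ^ i * 2 ^ (k - i + 2) = 4 * 2 ^ k := by
      rw [← pow_add]
      have : i + (k - i + 2) = k + 2 := by omega
      rw [this, pow_add]; ring
    rw [h5, mul_assoc, h6]; ring
  have a6 : (i : ℝ) + 1 ≤ k + 1 := by
    have : (i : ℝ) ≤ k := by exact_mod_cast hik
    linarith
  calc ((Big V i).card : ℝ) * (((k : ℝ) * k + 1) * ((k * k + 2) * 2 ^ (k - i + 2)))
      ≤ ((k + 1) * 4 ^ i / V) * ((k * k + 2) * ((k * k + 2) * 2 ^ (k - i + 2))) := by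
        apply mul_le_mul _ _ (by positivity) (by positivity)
        · refine a2.trans ?_
          apply div_le_div_of_nonneg_right _ hV.le
          exact mul_le_mul_of_nonneg_right a6 (by positivity)
        · apply mul_le_mul_of_nonneg_right _ (by positivity)
          linarith
    _ = (k + 1) * (k * k + 2) ^ 2 / V * (4 ^ i * 2 ^ (k - i + 2)) := by ring
    _ = _ := by rw [a4]; ring

/-- few starting points exceed `V` after a dip below `2 ^ L`, before a value `< 2 ^ l` -/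
theorem late {k l L : ℕ} (hlk : l ≤ k) (hLk : L ≤ k) (hM : 2 * (k * k) ≤ 2 ^ l) {V : ℝ} (hV : 0 < V)
    (S : Finset ℕ) (hS : ∀ x ∈ S, 0 < x ∧ x < 2 ^ k ∧ ∃ a b, a ≤ b ∧ T^[a] x < 2 ^ L ∧
      V < (T^[b] x : ℕ) ∧ ∀ j ≤ b, 2 ^ l ≤ T^[j] x) :
    (S.card : ℝ) ≤ 8 * (k * k + 2) ^ 2 * (k + 1) * (2 ^ k * rho ^ l + 2 ^ k * 2 ^ L / V) := by
  classical
  have hsub : S ⊆ (Ioc l k).biUnion (fun i => bad k i k (k * k)) ∪
      (Ioc l L).biUnion (fun i => (range (2 ^ k)).filter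
        (fun x => 0 < x ∧ ∃ m ≤ k * k, FP i m x ∧ T^[m] x ∈ Big V i)) := by
    intro x hx
    obtain ⟨h1, h2, a, b, hab, h3, h4, h5⟩ := hS x hx
    by_contra hcon
    rw [mem_union, not_or, mem_biUnion, mem_biUnion] at hcon
    obtain ⟨hc1, hc2⟩ := hcon
    have hbad : ∀ i, l < i → i ≤ k → x ∉ bad k i k (k * k) :=
      fun i hi hik hb => hc1 ⟨i, mem_Ioc.2 ⟨hi, hik⟩, hb⟩
    obtain ⟨j0, hj0, hmin⟩ := exists_min_image (range (b + 1)) (fun j => T^[j] x) ⟨0, by simp⟩
    rw [mem_range] at hj0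
    set y0 := T^[j0] x with hy0
    have hmin' : ∀ j ≤ b, y0 ≤ T^[j] x := fun j hj => hmin j (mem_range.2 (by omega))
    have hy0l : 2 ^ l ≤ y0 := h5 j0 (by omega)
    have hy0pos : y0 ≠ 0 := by
      have : 0 < 2 ^ l := by positivity
      omega
    have hy0L : y0 < 2 ^ L := lt_of_le_of_lt (hmin' a hab) h3
    obtain ⟨i, hi⟩ : ∃ i, i = Nat.log 2 y0 + 1 := ⟨_, rfl⟩
    have hi1 : 2 ^ (i - 1) ≤ y0 := by
      rw [hi, Nat.add_sub_cancel]; exact Nat.pow_log_le_self 2 hy0pos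
    have hi2 : y0 < 2 ^ i := by rw [hi]; exact Nat.lt_pow_succ_log_self (by norm_num) _
    have hli : l < i := by
      by_contra h
      have : 2 ^ i ≤ 2 ^ l := Nat.pow_le_pow_right (by norm_num) (by omega)
      omega
    have hiL : i ≤ L := by
      by_contra h
      have : 2 ^ L ≤ 2 ^ (i - 1) := Nat.pow_le_pow_right (by norm_num) (by omega)
      omega
    have hik : i ≤ k := hiL.trans hLk
    obtain ⟨m, hm, hfp⟩ := descend h1 h2 hbad (k - i) (by omega)
    have e1 : k - (k - i) = i := by omega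
    rw [e1] at hfp hm
    have hm2 : m ≤ k * k := hm.trans (Nat.mul_le_mul_right _ (by omega))
    have hmj : m ≤ j0 := by
      by_contra h
      have := hfp.1 j0 (by omega)
      omega
    have hTm : y0 ≤ T^[m] x := hmin' m (by omega)
    have hpow : 2 ^ i = 2 * 2 ^ (i - 1) := by rw [← pow_succ']; congr 1; omega
    have hns : T^[m] x ∉ stuck i (min i k) := by
      intro hcon
      apply hbad i hli hik
      rw [bad, mem_filter, mem_range]
      exact ⟨h2, h1, m, hm2, hfp, hcon⟩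
    rw [min_eq_left hik] at hns
    have hpn := pass_next (le_refl i) hfp.2 (by omega) hns (by omega)
    have hbm : b < m + i := by
      by_contra h
      have h6 := hmin' (i + m) (by omega)
      rw [Function.iterate_add_apply] at h6
      omega
    apply hc2
    refine ⟨i, mem_Ioc.2 ⟨hli, hiL⟩, ?_⟩
    rw [mem_filter, mem_range]
    refine ⟨h2, h1, m, hm2, hfp, ?_⟩
    rw [mem_Big]
    refine ⟨hfp.2, by omega, b - m, by omega, ?_⟩
    rw [← Function.iterate_add_apply]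
    have : b - m + m = b := by omega
    rwa [this]
  have h1 : (S.card : ℝ) ≤ ∑ i ∈ Ioc l k, ((bad k i k (k * k)).card : ℝ) +
      ∑ i ∈ Ioc l L, (((range (2 ^ k)).filter
        (fun x => 0 < x ∧ ∃ m ≤ k * k, FP i m x ∧ T^[m] x ∈ Big V i)).card : ℝ) := by
    have h2 := (card_le_card hsub).trans (card_union_le _ _)
    have h3 := h2.trans (Nat.add_le_add card_biUnion_le card_biUnion_le)
    exact_mod_cast h3
  have h2 : ∑ i ∈ Ioc l k, ((bad k i k (k * k)).card : ℝ)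
      ≤ (k + 1) * (8 * (k * k + 2) ^ 2 * 2 ^ k * rho ^ l) := by
    calc ∑ i ∈ Ioc l k, ((bad k i k (k * k)).card : ℝ)
        ≤ ∑ i ∈ Ioc l k, 8 * ((k : ℝ) * k + 2) ^ 2 * 2 ^ k * rho ^ l :=
          sum_le_sum fun i hi => card_bad_le k l hM (mem_Ioc.1 hi).1 (mem_Ioc.1 hi).2
      _ = ((k - l : ℕ) : ℝ) * (8 * (k * k + 2) ^ 2 * 2 ^ k * rho ^ l) := by
          rw [sum_const, Nat.card_Ioc, nsmul_eq_mul]
      _ ≤ _ := by
          apply mul_le_mul_of_nonneg_right _ (by have := rho_pos; positivity)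
          have : ((k - l : ℕ) : ℝ) ≤ k := by exact_mod_cast Nat.sub_le _ _
          linarith
  have h3 : ∑ i ∈ Ioc l L, (((range (2 ^ k)).filter
        (fun x => 0 < x ∧ ∃ m ≤ k * k, FP i m x ∧ T^[m] x ∈ Big V i)).card : ℝ) ≤
      (4 * (k + 1) * (k * k + 2) ^ 2 * 2 ^ k / V) * (2 * 2 ^ L) := by
    calc _ ≤ ∑ i ∈ Ioc l L, (4 * ((k : ℝ) + 1) * (k * k + 2) ^ 2 * 2 ^ k / V) * 2 ^ i := by
          apply sum_le_sum
          intro i hi
          rw [mem_Ioc] at hi
          exact card_pass_Big hV (hi.2.trans hLk)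
            (hM.trans (Nat.pow_le_pow_right (by norm_num) hi.1.le))
      _ = (4 * (k + 1) * (k * k + 2) ^ 2 * 2 ^ k / V) * ∑ i ∈ Ioc l L, (2 : ℝ) ^ i := by rw [mul_sum]
      _ ≤ _ := by
          apply mul_le_mul_of_nonneg_left _ (by positivity)
          have h6 : ∑ i ∈ Ioc l L, (2 : ℝ) ^ i ≤ ∑ i ∈ range (L + 1), (2 : ℝ) ^ i := by
            apply sum_le_sum_of_subset_of_nonneg
            · intro i hi
              rw [mem_Ioc] at hi
              rw [mem_range]; omega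
            · intro i _ _; positivity
          refine h6.trans ?_
          rw [geom_sum_eq (by norm_num), pow_succ]
          linarith
  calc (S.card : ℝ) ≤ (k + 1) * (8 * (k * k + 2) ^ 2 * 2 ^ k * rho ^ l)
        + (4 * (k + 1) * (k * k + 2) ^ 2 * 2 ^ k / V) * (2 * 2 ^ L) := h1.trans (add_le_add h2 h3)
    _ = _ := by ring

end Pool.Agent.W36.SL
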