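import Pool.Agent.W36.SL.Asymp

/-! `lam * p lam` converges. -/

set_option autoImplicit false

namespace Pool.Agent.W36.SL

open MeasureTheory Filter Topology Set

theorem Lh_cont {z : ℂ} (hz : 0 < z.re) : ContinuousAt Lh z := by
  have hnb : ∀ᶠ w in 𝓝 z, z.re / 2 < w.re :=
    (Complex.continuous_re.tendsto z).eventually (lt_mem_nhds (by linarith))
  refine continuousAt_of_dominated (bound := fun u => Real.exp (-(z.re / 2) * u))
    (Eventually.of_forall fun w => (F_meas w).aestronglyMeasurable) ?_
    (integrableOn_exp_mul_Ioi (by linarith) 0) (Eventually.of_forall fun u => ?_)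
  · filter_upwards [hnb] with w hw
    refine (ae_restrict_mem measurableSet_Ioi).mono fun u hu => ?_
    have hu' : (0 : ℝ) < u := hu
    refine (F_norm w u).trans (Real.exp_le_exp.2 ?_)
    nlinarith
  · unfold F
    fun_prop

/-- the continuous extension -/
noncomputable def Phi (z : ℂ) : ℂ :=
  if z.re < 1 / 2 then dslope Mz 0 z else Lh z / (1 + z) - A0 / z

theorem F1_eq {z : ℂ} (h0 : 0 < z.re) (h1 : z.re < 1) : dslope Mz 0 z = Lh z / (1 + z) - A0 / z := by
  have hz : z ≠ 0 := by rintro rfl; simp at h0
  have h2 := Lh_eq h0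
  have h3 := D1_ne_zero h0.le h1
  have h4 := one_add_ne h0.le
  have h5 : D z = D1 z * z := by rw [D1_ne hz]; field_simp
  rw [dslope_of_ne _ hz, slope_def_field, Mz_zero, sub_zero]
  unfold Mz
  rw [← h2, h5]
  field_simp

theorem Phi_of_pos {z : ℂ} (h0 : 0 < z.re) : Phi z = Lh z / (1 + z) - A0 / z := by
  unfold Phi
  split_ifs with h
  · exact F1_eq h0 (by linarith)
  · rfl

theorem F1_cont {z : ℂ} (h0 : 0 ≤ z.re) (h1 : z.re < 1) : ContinuousAt (dslope Mz 0) z := by
  by_cases hz : z = 0
  · rw [hz]
    exact continuousAt_dslope_same.2 (Mz_diff (by simp) (by simp))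
  · exact (continuousAt_dslope_of_ne hz).2 (Mz_diff h0 h1).continuousAt

theorem Phi_cont : ContinuousOn Phi {z | 0 ≤ z.re} := by
  intro z hz
  have hz' : 0 ≤ z.re := hz
  apply ContinuousAt.continuousWithinAt
  rcases lt_or_ge z.re (1 / 2) with h | h
  · have h1 : Phi =ᶠ[𝓝 z] dslope Mz 0 := by
      filter_upwards [(Complex.continuous_re.tendsto z).eventually (gt_mem_nhds h)] with w hw
      exact if_pos hw
    exact (F1_cont hz' (by linarith)).congr h1.symm
  · have h1 : Phi =ᶠ[𝓝 z] fun w => Lh w / (1 + w) - A0 / w := by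
      filter_upwards [(Complex.continuous_re.tendsto z).eventually
        (lt_mem_nhds (show (0 : ℝ) < z.re by linarith))] with w hw
      exact Phi_of_pos hw
    refine ContinuousAt.congr ?_ h1.symm
    have hz0 : z ≠ 0 := by rintro rfl; norm_num at h
    exact ((Lh_cont (by linarith)).div (by fun_prop) (one_add_ne (by linarith))).sub
      (continuousAt_const.div continuousAt_id hz0)

open Pool.Agent.Helper799.PNT in
theorem hE (σ : ℝ) (hσ : 0 < σ) (y : ℝ) : ∫ u in Ioi (0:ℝ), ((ff S u - A0 : ℝ) : ℂ) *
    Complex.exp (-((σ:ℂ) + Complex.I * y) * u) = Phi (σ + Complex.I * y) := by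
  set z : ℂ := (σ:ℂ) + Complex.I * y with hz
  have hzre : z.re = σ := by simp [hz]
  have hz0 : 0 < z.re := by rw [hzre]; exact hσ
  rw [Phi_of_pos hz0, ← Lg_eq hz0]
  have hexp : ∫ u in Ioi (0:ℝ), Complex.exp (-z * u) = 1 / z := by
    rw [integral_exp_mul_complex_Ioi (by simpa using hz0)]
    simp
  have hiexp : IntegrableOn (fun u : ℝ => Complex.exp (-z * u)) (Ioi 0) :=
    integrableOn_exp_mul_complex_Ioi (by simpa using hz0) 0
  have hSm := ff_measurable S_mono
  have hiff : IntegrableOn (fun u : ℝ => ((ff S u : ℝ) : ℂ) * Complex.exp (-z * u)) (Ioi 0) := by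
    refine Integrable.mono' (g := fun u => 1 * Real.exp (-σ * u)) ?_ ?_ ?_
    · exact (integrableOn_exp_mul_Ioi (by linarith) 0).const_mul 1
    · exact Measurable.aestronglyMeasurable (by fun_prop)
    · refine (ae_restrict_mem measurableSet_Ioi).mono fun u hu => ?_
      have hu' : (0:ℝ) ≤ u := le_of_lt hu
      rw [norm_mul, Complex.norm_exp, Complex.norm_real, Real.norm_of_nonneg (ff_nonneg S_nonneg u)]
      have e2 : (-z * u).re = -σ * u := by simp [hz]
      rw [e2]
      exact mul_le_mul_of_nonneg_right (ff_le S_le hu') (Real.exp_pos _).le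
  have e : (A0 : ℂ) / z = A0 * ∫ u in Ioi (0:ℝ), Complex.exp (-z * u) := by rw [hexp]; ring
  rw [e, ← integral_const_mul, ← integral_sub hiff (hiexp.const_mul _)]
  refine integral_congr_ae (Eventually.of_forall fun u => ?_)
  simp only
  push_cast
  ring

open Pool.Agent.Helper799.PNT in
theorem g_tendsto : Tendsto (fun u => G u * Real.exp (-u)) atTop (𝓝 A0) := by
  have h := tauber S_mono S_nonneg S_le fun L hL => rl_step S_mono S_nonneg S_le Phi_cont hE L hL
  refine h.congr' ?_
  filter_upwards [eventually_ge_atTop 0] with u hu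
  exact ff_S hu

theorem G_upper (u : ℝ) {η : ℝ} (hη : 0 ≤ η) :
    G (u + η) - G u ≤ η * (Real.exp (u + 2 * η) * h u) := by
  rw [G_sub]
  have h1 : ∫ w in u..(u + η), eh w ≤ ∫ _w in u..(u + η), Real.exp (u + 2 * η) * h u := by
    refine intervalIntegral.integral_mono_on (by linarith) (eh_iint _ _)
      intervalIntegrable_const fun w hw => ?_
    unfold eh h
    have h2 : p (Real.exp w) ≤ p (Real.exp u) := p_anti (Real.exp_le_exp.2 hw.1)
    have h3 : Real.exp w * Real.exp w ≤ Real.exp (u + 2 * η) * Real.exp u := by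
      rw [← Real.exp_add, ← Real.exp_add]
      exact Real.exp_le_exp.2 (by linarith [hw.2])
    calc Real.exp w * (Real.exp w * p (Real.exp w)) = Real.exp w * Real.exp w * p (Real.exp w) := by ring
      _ ≤ Real.exp (u + 2 * η) * Real.exp u * p (Real.exp u) :=
          mul_le_mul h3 h2 (p_nonneg _) (by positivity)
      _ = _ := by ring
  refine h1.trans (le_of_eq ?_)
  rw [intervalIntegral.integral_const, smul_eq_mul]; ring

theorem G_lower (u : ℝ) {η : ℝ} (hη : 0 ≤ η) :
    η * (Real.exp (u - 2 * η) * h u) ≤ G u - G (u - η) := by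
  rw [G_sub]
  have h1 : ∫ _w in (u - η)..u, Real.exp (u - 2 * η) * h u ≤ ∫ w in (u - η)..u, eh w := by
    refine intervalIntegral.integral_mono_on (by linarith)
      intervalIntegrable_const (eh_iint _ _) fun w hw => ?_
    unfold eh h
    have h2 : p (Real.exp u) ≤ p (Real.exp w) := p_anti (Real.exp_le_exp.2 hw.2)
    have h3 : Real.exp (u - 2 * η) * Real.exp u ≤ Real.exp w * Real.exp w := by
      rw [← Real.exp_add, ← Real.exp_add]
      exact Real.exp_le_exp.2 (by linarith [hw.1])
    calc Real.exp (u - 2 * η) * (Real.exp u * p (Real.exp u))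
        = Real.exp (u - 2 * η) * Real.exp u * p (Real.exp u) := by ring
      _ ≤ Real.exp w * Real.exp w * p (Real.exp w) := mul_le_mul h3 h2 (p_nonneg _) (by positivity)
      _ = _ := by ring
  refine le_trans (le_of_eq ?_) h1
  rw [intervalIntegral.integral_const, smul_eq_mul]; ring

theorem A0_nonneg : 0 ≤ A0 := ge_of_tendsto g_tendsto (by
  filter_upwards [eventually_ge_atTop 0] with u hu
  exact mul_nonneg (G_nonneg hu) (Real.exp_pos _).le)

theorem h_tendsto : Tendsto h atTop (𝓝 A0) := by
  have hA := A0_nonneg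
  refine tendsto_order.2 ⟨fun a ha => ?_, fun b hb => ?_⟩
  · have hc : Tendsto (fun η : ℝ => A0 * Real.exp (-2 * η)) (𝓝[>] 0) (𝓝 (A0 * Real.exp (-2 * 0))) :=
      (by fun_prop : Continuous fun η : ℝ => A0 * Real.exp (-2 * η)).continuousWithinAt
    rw [mul_zero, Real.exp_zero, mul_one] at hc
    obtain ⟨η, hη1, hη2⟩ := ((hc.eventually (lt_mem_nhds ha)).and self_mem_nhdsWithin).exists
    have hη : 0 < η := hη2
    have h1 : Tendsto (fun u => (G (u + η) * Real.exp (-(u + η)) * Real.exp η
        - G u * Real.exp (-u)) / (η * Real.exp (2 * η))) atTop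
        (𝓝 ((A0 * Real.exp η - A0) / (η * Real.exp (2 * η)))) := by
      refine Tendsto.div_const (Tendsto.sub (Tendsto.mul_const _ ?_) g_tendsto) _
      exact g_tendsto.comp (tendsto_atTop_add_const_right _ _ tendsto_id)
    have h2 : a < (A0 * Real.exp η - A0) / (η * Real.exp (2 * η)) := by
      refine hη1.trans_le ?_
      rw [le_div_iff₀ (by positivity)]
      have e1 : Real.exp (-2 * η) * Real.exp (2 * η) = 1 := by
        rw [← Real.exp_add]; simp
      have e2 := Real.add_one_le_exp η
      calc A0 * Real.exp (-2 * η) * (η * Real.exp (2 * η))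
          = A0 * η * (Real.exp (-2 * η) * Real.exp (2 * η)) := by ring
        _ = A0 * η := by rw [e1, mul_one]
        _ ≤ A0 * (Real.exp η - 1) := mul_le_mul_of_nonneg_left (by linarith) hA
        _ = _ := by ring
    filter_upwards [h1.eventually (lt_mem_nhds h2)] with u hu
    refine hu.trans_le ?_
    rw [div_le_iff₀ (by positivity)]
    have h3 := G_upper u hη.le
    have e3 : Real.exp (-(u + η)) * Real.exp η = Real.exp (-u) := by
      rw [← Real.exp_add]; congr 1; ring
    have e4 : Real.exp (u + 2 * η) * Real.exp (-u) = Real.exp (2 * η) := by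
      rw [← Real.exp_add]; congr 1; ring
    calc G (u + η) * Real.exp (-(u + η)) * Real.exp η - G u * Real.exp (-u)
        = (G (u + η) - G u) * Real.exp (-u) := by rw [mul_assoc, e3]; ring
      _ ≤ η * (Real.exp (u + 2 * η) * h u) * Real.exp (-u) :=
          mul_le_mul_of_nonneg_right h3 (Real.exp_pos _).le
      _ = h u * (η * (Real.exp (u + 2 * η) * Real.exp (-u))) := by ring
      _ = _ := by rw [e4]
  · have hc : Tendsto (fun η : ℝ => A0 * Real.exp (2 * η)) (𝓝[>] 0) (𝓝 (A0 * Real.exp (2 * 0))) :=
      (by fun_prop : Continuous fun η : ℝ => A0 * Real.exp (2 * η)).continuousWithinAt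
    rw [mul_zero, Real.exp_zero, mul_one] at hc
    obtain ⟨η, hη1, hη2⟩ := ((hc.eventually (gt_mem_nhds hb)).and self_mem_nhdsWithin).exists
    have hη : 0 < η := hη2
    have h1 : Tendsto (fun u => (G u * Real.exp (-u)
        - G (u - η) * Real.exp (-(u - η)) * Real.exp (-η)) * (Real.exp (2 * η) / η)) atTop
        (𝓝 ((A0 - A0 * Real.exp (-η)) * (Real.exp (2 * η) / η))) := by
      refine Tendsto.mul_const _ (Tendsto.sub g_tendsto (Tendsto.mul_const _ ?_))
      exact g_tendsto.comp (tendsto_atTop_add_const_right _ _ tendsto_id)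
    have h2 : (A0 - A0 * Real.exp (-η)) * (Real.exp (2 * η) / η) < b := by
      refine lt_of_le_of_lt ?_ hη1
      have e2 := Real.add_one_le_exp (-η)
      calc (A0 - A0 * Real.exp (-η)) * (Real.exp (2 * η) / η)
          = A0 * (1 - Real.exp (-η)) * (Real.exp (2 * η) / η) := by ring
        _ ≤ A0 * η * (Real.exp (2 * η) / η) := by
            apply mul_le_mul_of_nonneg_right _ (by positivity)
            exact mul_le_mul_of_nonneg_left (by linarith) hA
        _ = _ := by field_simp
    filter_upwards [h1.eventually (gt_mem_nhds h2)] with u hu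
    refine lt_of_le_of_lt ?_ hu
    have h3 := G_lower u hη.le
    have e3 : Real.exp (-(u - η)) * Real.exp (-η) = Real.exp (-u) := by
      rw [← Real.exp_add]; congr 1; ring
    have e4 : Real.exp (u - 2 * η) * Real.exp (-u) * Real.exp (2 * η) = 1 := by
      rw [← Real.exp_add, ← Real.exp_add]; rw [← Real.exp_zero]; congr 1; ring
    calc h u = (η * (Real.exp (u - 2 * η) * h u)) * Real.exp (-u) * (Real.exp (2 * η) / η) := by
          calc h u = h u * (Real.exp (u - 2 * η) * Real.exp (-u) * Real.exp (2 * η)) := by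
                rw [e4, mul_one]
            _ = _ := by field_simp
      _ ≤ (G u - G (u - η)) * Real.exp (-u) * (Real.exp (2 * η) / η) := by
          apply mul_le_mul_of_nonneg_right _ (by positivity)
          exact mul_le_mul_of_nonneg_right h3 (Real.exp_pos _).le
      _ = _ := by rw [mul_assoc (G (u - η)), e3]; ring

theorem int_h : ∫ v in (0)..l2, h v = ∫ t in (1 : ℝ)..2, p t := by
  rw [intervalIntegral.integral_of_le l2_pos.le, intervalIntegral.integral_of_le (by norm_num)]
  have himg : Real.exp '' (Ioc 0 l2) = Ioc 1 2 := by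
    ext t
    constructor
    · rintro ⟨u, hu, rfl⟩
      refine ⟨Real.one_lt_exp_iff.mpr hu.1, ?_⟩
      rw [← exp_l2]; exact Real.exp_le_exp.2 hu.2
    · intro ht
      have h1 : (1:ℝ) < t := ht.1
      exact ⟨Real.log t, ⟨Real.log_pos h1, Real.log_le_log (by linarith) ht.2⟩,
        Real.exp_log (by linarith)⟩
  rw [← himg, integral_image_eq_integral_abs_deriv_smul measurableSet_Ioc
    (fun x _ => (Real.hasDerivAt_exp x).hasDerivWithinAt) (Real.exp_injective.injOn)]
  refine integral_congr_ae (Eventually.of_forall fun u => ?_)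
  simp only
  rw [abs_of_pos (Real.exp_pos u), smul_eq_mul]
  rfl

/-- the Cramér–Lundberg constant -/
noncomputable def C : ℝ := (∫ t in (1 : ℝ)..2, q t) / Real.log (27 / 16)

theorem p_iint (a b : ℝ) : IntervalIntegrable p volume a b := p_anti.intervalIntegrable
theorem q_iint (a b : ℝ) : IntervalIntegrable q volume a b := q_mono.intervalIntegrable

theorem A0_eq : A0 = C := by
  unfold A0 C
  have h1 : ∫ t in (1 : ℝ)..2, q t = 1 - ∫ t in (1 : ℝ)..2, p t := by
    have : ∫ t in (1 : ℝ)..2, p t = ∫ t in (1 : ℝ)..2, (1 - q t) := rfl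
    rw [this, intervalIntegral.integral_sub intervalIntegrable_const (q_iint _ _),
      intervalIntegral.integral_const]
    norm_num
  rw [int_h, h1, al_eq]
  have := Real.log_pos (show (1 : ℝ) < 27 / 16 by norm_num)
  field_simp

theorem C_pos : 0 < C := by
  unfold C
  refine div_pos ?_ (Real.log_pos (by norm_num))
  have h1 : ∫ t in (1 : ℝ)..2, (1 - t⁻¹) ≤ ∫ t in (1 : ℝ)..2, q t := by
    refine intervalIntegral.integral_mono_on (by norm_num) ?_ (q_iint _ _) fun t ht => ?_
    · refine intervalIntegrable_const.sub (intervalIntegral.intervalIntegrable_inv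
        (fun x hx => ?_) continuousOn_id)
      rw [uIcc_of_le (by norm_num)] at hx
      have := hx.1
      linarith
    · have := q_ge (show 0 < t by linarith [ht.1])
      rwa [one_div] at this
  have h2 : ∫ t in (1 : ℝ)..2, (1 - t⁻¹) = 1 - Real.log 2 := by
    rw [intervalIntegral.integral_sub intervalIntegrable_const, intervalIntegral.integral_const,
      integral_inv_of_pos (by norm_num) (by norm_num)]
    · norm_num
    · refine intervalIntegral.intervalIntegrable_inv (fun x hx => ?_) continuousOn_id
      rw [uIcc_of_le (by norm_num)] at hx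
      have := hx.1
      linarith
  have h3 := Real.log_two_lt_d9
  linarith

/-- `lam * p lam → C` -/
theorem p_tendsto : Tendsto (fun lam => lam * p lam) atTop (𝓝 C) := by
  rw [← A0_eq]
  refine (h_tendsto.comp Real.tendsto_log_atTop).congr' ?_
  filter_upwards [eventually_gt_atTop 0] with x hx
  simp only [Function.comp, h]
  rw [Real.exp_log hx]

end Pool.Agent.W36.SL
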