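import Pool.Agent.W36.SL.Upper

/-! Lower bound, finite form. -/

set_option autoImplicit false

namespace Pool.Agent.W36.SL

open Finset Pool.Agent.Helper894.Collatz Pool.Agent.H828R3.Exc

open scoped Classical in
/-- the lower bound -/
theorem lower_fin {N N0 J : ℕ} {lam lam2 Y : ℝ} (hlam : 0 < lam) (hl : lam < lam2) (hN0 : 0 < N0)
    (hY0 : 0 ≤ Y) :
    ((N : ℝ) - N0 - 2 * 2 ^ J) * (1 - s J lam2) -
      (N + 1 + 2 ^ J) * ((J + 1) ^ 2 * ((Y / N0) / lam2)) ≤
      (((Icc 1 N).filter (Exc lam Y)).card : ℝ) := by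
  have hN0R : (0 : ℝ) < N0 := by exact_mod_cast hN0
  set mu : ℝ := Y / N0 with hmu
  have hmu0 : 0 ≤ mu := by positivity
  have hsub : ((range (N + 1)).filter fun n => PP lam2 J n) ⊆
      (Icc 1 N).filter (Exc lam Y) ∪ ((range (N0 + 1)).filter fun n => PP lam2 J n) ∪
      ((range (N + 1)).filter fun n => Dip mu lam2 J n) := by
    intro n hn
    rw [mem_filter, mem_range] at hn
    obtain ⟨hn1, hn2⟩ := hn
    rw [mem_union, mem_union]
    by_cases hnN : n ≤ N0
    · left; right
      exact mem_filter.2 ⟨mem_range.2 (by omega), hn2⟩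
    by_cases hD : Dip mu lam2 J n
    · right
      exact mem_filter.2 ⟨mem_range.2 hn1, hD⟩
    left; left
    rw [mem_filter, mem_Icc]
    have hn0 : 0 < n := by omega
    have hn0R : (0 : ℝ) < n := by exact_mod_cast hn0
    refine ⟨⟨hn0, by omega⟩, ?_⟩
    obtain ⟨j, hj, hjb⟩ := hn2
    rw [ge_iff] at hjb
    refine ⟨j, ?_, ?_⟩
    · calc lam * n < lam2 * n := mul_lt_mul_of_pos_right hl hn0R
        _ ≤ MM j n * n := mul_le_mul_of_nonneg_right hjb hn0R.le
        _ ≤ _ := iter_ge j n
    · intro i hi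
      have h1 : mu < MM i n := by
        by_contra h
        exact hD ⟨j, hj, i, hi, not_lt.1 h, hjb⟩
      calc Y = mu * N0 := by rw [hmu]; field_simp
        _ ≤ mu * n := by
            apply mul_le_mul_of_nonneg_left _ hmu0
            exact_mod_cast (by omega : N0 ≤ n)
        _ < MM i n * n := mul_lt_mul_of_pos_right h1 hn0R
        _ ≤ _ := iter_ge i n
  have hcard : (((range (N + 1)).filter fun n => PP lam2 J n).card : ℝ) ≤
      (((Icc 1 N).filter (Exc lam Y)).card : ℝ) +
      (((range (N0 + 1)).filter fun n => PP lam2 J n).card : ℝ) +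
      (((range (N + 1)).filter fun n => Dip mu lam2 J n).card : ℝ) := by
    have h1 := (card_le_card hsub).trans ((card_union_le _ _).trans
      (Nat.add_le_add_right (card_union_le _ _) _))
    exact_mod_cast h1
  have c1 := (card_PP_N J (N + 1) lam2).2
  have c2 := (card_PP_N J (N0 + 1) lam2).1
  have c3 := card_Dip_N J (N + 1) hmu0 (hlam.trans hl)
  push_cast at c1 c2 c3
  have e : ((N : ℝ) - N0 - 2 * 2 ^ J) * (1 - s J lam2) =
      ((N : ℝ) + 1 - 2 ^ J) * (1 - s J lam2) - (N0 + 1 + 2 ^ J) * (1 - s J lam2) := by ring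
  rw [e]
  linarith

end Pool.Agent.W36.SL
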