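import Mathlib

/-! The proportion of parity words without large excursion: recursion and elementary bounds. -/

set_option autoImplicit false

namespace Pool.Agent.W36.SL

open Finset Filter Topology

/-- proportion of the words of length `K` with `M_0, ..., M_K < lam` -/
noncomputable def s : ℕ → ℝ → ℝ
  | 0, lam => if 1 < lam then 1 else 0
  | K + 1, lam => if 1 < lam then (s K (2 * lam / 3) + s K (2 * lam)) / 2 else 0

theorem s_succ (K : ℕ) {lam : ℝ} (h : 1 < lam) :
    s (K + 1) lam = (s K (2 * lam / 3) + s K (2 * lam)) / 2 := if_pos h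

theorem s_nonneg (K : ℕ) : ∀ lam, 0 ≤ s K lam := by
  induction K with
  | zero => intro lam; unfold s; split_ifs <;> norm_num
  | succ K ih =>
    intro lam; unfold s
    split_ifs
    · have := ih (2 * lam / 3); have := ih (2 * lam); linarith
    · exact le_rfl

theorem s_le_one (K : ℕ) : ∀ lam, s K lam ≤ 1 := by
  induction K with
  | zero => intro lam; unfold s; split_ifs <;> norm_num
  | succ K ih =>
    intro lam; unfold s
    split_ifs
    · have := ih (2 * lam / 3); have := ih (2 * lam); linarith
    · norm_num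

theorem s_zero_of_le (K : ℕ) {lam : ℝ} (h : lam ≤ 1) : s K lam = 0 := by
  cases K <;> simp [s, not_lt.2 h]

theorem s_mono (K : ℕ) : Monotone (s K) := by
  induction K with
  | zero =>
    intro a b h; unfold s
    split_ifs with h1 h2
    · exact le_rfl
    · exact absurd (lt_of_lt_of_le h1 h) h2
    · exact zero_le_one
    · exact le_rfl
  | succ K ih =>
    intro a b h
    by_cases h1 : 1 < a
    · have h2 : 1 < b := lt_of_lt_of_le h1 h
      have e1 := ih (show 2 * a / 3 ≤ 2 * b / 3 by linarith)
      have e2 := ih (show 2 * a ≤ 2 * b by linarith)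
      simp only [s, if_pos h1, if_pos h2]
      linarith
    · rw [s_zero_of_le _ (not_lt.1 h1)]
      exact s_nonneg _ _

theorem s_anti (K : ℕ) : ∀ lam, s (K + 1) lam ≤ s K lam := by
  induction K with
  | zero =>
    intro lam
    by_cases h : 1 < lam
    · have e1 := s_le_one 0 (2 * lam / 3)
      have e2 := s_le_one 0 (2 * lam)
      have e3 : s 0 lam = 1 := by simp [s, h]
      rw [s_succ 0 h, e3]; linarith
    · rw [s_zero_of_le _ (not_lt.1 h)]
      exact s_nonneg _ _
  | succ K ih =>
    intro lam
    by_cases h : 1 < lam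
    · have e1 := ih (2 * lam / 3)
      have e2 := ih (2 * lam)
      rw [s_succ (K + 1) h, s_succ K h]; linarith
    · rw [s_zero_of_le _ (not_lt.1 h)]
      exact s_nonneg _ _

theorem s_antitone (lam : ℝ) : Antitone fun K => s K lam := antitone_nat_of_succ_le fun K => s_anti K lam

theorem s_ge (K : ℕ) : ∀ lam : ℝ, 0 < lam → 1 - 1 / lam ≤ s K lam := by
  induction K with
  | zero =>
    intro lam h0
    by_cases h : 1 < lam
    · have : 0 < 1 / lam := by positivity
      simp only [s, if_pos h]; linarith
    · have : 1 ≤ 1 / lam := by rw [le_div_iff₀ h0]; linarith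
      rw [s_zero_of_le _ (not_lt.1 h)]; linarith
  | succ K ih =>
    intro lam h0
    by_cases h : 1 < lam
    · have e1 := ih (2 * lam / 3) (by linarith)
      have e2 := ih (2 * lam) (by linarith)
      have e3 : 1 / (2 * lam / 3) = 3 / 2 * (1 / lam) := by field_simp
      have e4 : 1 / (2 * lam) = 1 / 2 * (1 / lam) := by field_simp
      rw [e3] at e1; rw [e4] at e2
      simp only [s, if_pos h]; linarith
    · have : 1 ≤ 1 / lam := by rw [le_div_iff₀ h0]; linarith
      rw [s_zero_of_le _ (not_lt.1 h)]; linarith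

/-- the limit of the proportions -/
noncomputable def q (lam : ℝ) : ℝ := ⨅ K, s K lam

theorem s_tendsto (lam : ℝ) : Tendsto (fun K => s K lam) atTop (𝓝 (q lam)) :=
  tendsto_atTop_ciInf (s_antitone lam) ⟨0, by rintro _ ⟨K, rfl⟩; exact s_nonneg K lam⟩

theorem q_nonneg (lam : ℝ) : 0 ≤ q lam := ge_of_tendsto' (s_tendsto lam) fun K => s_nonneg K lam
theorem q_le_one (lam : ℝ) : q lam ≤ 1 := le_of_tendsto' (s_tendsto lam) fun K => s_le_one K lam
theorem q_le_s (K : ℕ) (lam : ℝ) : q lam ≤ s K lam := (s_antitone lam).le_of_tendsto (s_tendsto lam) K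
theorem q_ge {lam : ℝ} (h : 0 < lam) : 1 - 1 / lam ≤ q lam :=
  ge_of_tendsto' (s_tendsto lam) fun K => s_ge K lam h
theorem q_zero_of_le {lam : ℝ} (h : lam ≤ 1) : q lam = 0 :=
  tendsto_nhds_unique (s_tendsto lam) (by
    have : (fun K => s K lam) = fun _ => (0 : ℝ) := funext fun K => s_zero_of_le K h
    rw [this]; exact tendsto_const_nhds)
theorem q_mono : Monotone q := fun a b h =>
  le_of_tendsto_of_tendsto' (s_tendsto a) (s_tendsto b) fun K => s_mono K h
theorem q_rec {lam : ℝ} (h : 1 < lam) : q lam = (q (2 * lam / 3) + q (2 * lam)) / 2 := by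
  refine tendsto_nhds_unique ((s_tendsto lam).comp (tendsto_add_atTop_nat 1)) ?_
  refine (((s_tendsto (2 * lam / 3)).add (s_tendsto (2 * lam))).div_const 2).congr fun K => ?_
  simp only [Function.comp, s, if_pos h]

/-- the probability of an excursion `≥ lam` -/
noncomputable def p (lam : ℝ) : ℝ := 1 - q lam

theorem p_nonneg (lam : ℝ) : 0 ≤ p lam := sub_nonneg.2 (q_le_one lam)
theorem p_le_one (lam : ℝ) : p lam ≤ 1 := by have := q_nonneg lam; unfold p; linarith
theorem p_one_of_le {lam : ℝ} (h : lam ≤ 1) : p lam = 1 := by unfold p; rw [q_zero_of_le h]; ring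
theorem p_anti : Antitone p := fun a b h => by have := q_mono h; unfold p; linarith
theorem p_rec {lam : ℝ} (h : 1 < lam) : p lam = (p (2 * lam / 3) + p (2 * lam)) / 2 := by
  unfold p; rw [q_rec h]; ring
theorem mul_p_le {lam : ℝ} (h : 0 ≤ lam) : lam * p lam ≤ 1 := by
  rcases h.lt_or_eq with h | h
  · have := q_ge h
    have h2 : p lam ≤ 1 / lam := by unfold p; linarith
    calc lam * p lam ≤ lam * (1 / lam) := mul_le_mul_of_nonneg_left h2 h.le
      _ = 1 := by field_simp
  · rw [← h]; simp

end Pool.Agent.W36.SL
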