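import Pool.Agent.W36.SL.Lower
import Pool.Agent.W36.SL.Limit

/-! The uniform law. -/

set_option autoImplicit false

namespace Pool.Agent.W36.SL

open Finset Filter Topology Pool.Agent.Helper894.Collatz Pool.Agent.H828R3.Exc Pool.Agent.H377R2

theorem ev_small (n : ℕ) {t : ℝ} (ht : 0 < t) (A : ℝ) {e : ℝ} (he : 0 < e) :
    ∀ᶠ x in (atTop : Filter ℝ), A * (Real.log x ^ n * x ^ (-t)) ≤ e := by
  have h := (isLittleO_log_rpow_rpow_atTop (r := (n : ℝ)) ht).tendsto_div_nhds_zero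
  have h2 : Tendsto (fun x : ℝ => A * (Real.log x ^ n * x ^ (-t))) atTop (𝓝 (A * 0)) := by
    refine (h.const_mul A).congr' ?_
    filter_upwards [eventually_gt_atTop 0] with x hx
    rw [Real.rpow_neg hx.le, Real.rpow_natCast, div_eq_mul_inv]
  rw [mul_zero] at h2
  filter_upwards [h2.eventually (gt_mem_nhds he)] with x hx
  exact hx.le

theorem near {z : ℝ} (hz : 1 ≤ z) : ∃ m : ℕ, (2 : ℝ) ^ m ≤ z ∧ z < 2 ^ (m + 1) :=
  exists_nat_pow_near hz (by norm_num)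

theorem log_bound {m : ℕ} {x : ℝ} (hx : 0 < x) (h : (2 : ℝ) ^ m ≤ x) : (m : ℝ) ≤ 3 / 2 * Real.log x := by
  have h1 : (m : ℝ) * Real.log 2 ≤ Real.log x := by
    rw [← Real.log_pow]; exact Real.log_le_log (by positivity) h
  have h2 := Real.log_two_gt_d9
  have h3 : (0 : ℝ) ≤ m := Nat.cast_nonneg m
  nlinarith

/-- common choices -/
theorem bJ {J : ℕ} {x : ℝ} (hx : 1 ≤ x) (hJ : x ^ (20 / 21 : ℝ) < 2 ^ (J + 1)) :
    b ^ J ≤ 2 * x ^ (-(1 / 21) : ℝ) := by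
  have hx0 : 0 < x := by linarith
  refine (b_rpow J).trans ?_
  have h1 : x ^ (20 / 21 : ℝ) / 2 ≤ 2 ^ J := by rw [pow_succ] at hJ; linarith
  have h2 : ((2 : ℝ) ^ J) ^ (-(1 / 20) : ℝ) ≤ (x ^ (20 / 21 : ℝ) / 2) ^ (-(1 / 20) : ℝ) :=
    Real.rpow_le_rpow_of_nonpos (by positivity) h1 (by norm_num)
  refine h2.trans ?_
  rw [Real.div_rpow (by positivity) (by norm_num), ← Real.rpow_mul hx0.le, div_eq_mul_inv, mul_comm]
  have e1 : (20 / 21 : ℝ) * (-(1 / 20)) = -(1 / 21) := by norm_num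
  rw [e1]
  apply mul_le_mul_of_nonneg_right _ (by positivity)
  rw [← Real.rpow_neg (by norm_num), neg_neg]
  calc (2 : ℝ) ^ ((1 : ℝ) / 20) ≤ 2 ^ (1 : ℝ) :=
        Real.rpow_le_rpow_of_exponent_le (by norm_num) (by norm_num)
    _ = 2 := Real.rpow_one _

theorem rl {l : ℕ} {Y : ℝ} (hY : 0 < Y) (hl : Y < 2 ^ (l + 1)) : rho ^ l ≤ 2 * Y ^ (-(1 / 21) : ℝ) := by
  refine (rho_rpow l).trans ?_
  have h1 : Y / 2 ≤ 2 ^ l := by rw [pow_succ] at hl; linarith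
  have h2 : ((2 : ℝ) ^ l) ^ (-(1 / 21) : ℝ) ≤ (Y / 2) ^ (-(1 / 21) : ℝ) :=
    Real.rpow_le_rpow_of_nonpos (by positivity) h1 (by norm_num)
  refine h2.trans ?_
  rw [Real.div_rpow hY.le (by norm_num), div_eq_mul_inv, mul_comm]
  apply mul_le_mul_of_nonneg_right _ (by positivity)
  rw [← Real.rpow_neg (by norm_num), neg_neg]
  calc (2 : ℝ) ^ ((1 : ℝ) / 21) ≤ 2 ^ (1 : ℝ) :=
        Real.rpow_le_rpow_of_exponent_le (by norm_num) (by norm_num)
    _ = 2 := Real.rpow_one _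

/-- `p lam` for large `lam` -/
theorem p_ev {e : ℝ} (he : 0 < e) : ∃ L0 : ℝ, 1 ≤ L0 ∧ ∀ lam, L0 ≤ lam →
    (C - e) / lam ≤ p lam ∧ p lam ≤ (C + e) / lam := by
  have h := (p_tendsto.eventually (lt_mem_nhds (show C - e < C by linarith))).and
    (p_tendsto.eventually (gt_mem_nhds (show C < C + e by linarith)))
  obtain ⟨L0, hL0⟩ := eventually_atTop.1 h
  refine ⟨max L0 1, le_max_right _ _, fun lam hlam => ?_⟩
  obtain ⟨h1, h2⟩ := hL0 lam (le_trans (le_max_left _ _) hlam)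
  have h0 : 0 < lam := lt_of_lt_of_le one_pos (le_trans (le_max_right _ _) hlam)
  constructor
  · rw [div_le_iff₀ h0]; linarith
  · rw [le_div_iff₀ h0]; linarith

open scoped Classical in
theorem upper_asym {θ v : ℝ} (hθ : 0 < θ) (hθ1 : θ < 1) (hv : v < θ / 21)
    {e : ℝ} (he : 0 < e) (he1 : e ≤ 1) : ∃ L0 : ℝ, ∀ᶠ x in (atTop : Filter ℝ), ∀ Y lam : ℝ,
      x ^ θ ≤ Y → L0 ≤ lam → lam ≤ x ^ v →
      (((Icc 1 ⌊x⌋₊).filter (Exc lam Y)).card : ℝ) ≤ ((C + e) * (1 + e) ^ 2 + 2 * e) * (x / lam) := by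
  obtain ⟨L1, hL1, hp⟩ := p_ev he
  refine ⟨2 * L1, ?_⟩
  set η : ℝ := 1 / 21 - v with hη
  have hη0 : 0 < η := by linarith
  have hs1 : 0 < θ / 21 - v := by linarith
  have hC := C_pos
  filter_upwards [eventually_ge_atTop (Real.exp 1),
    ev_small 0 (show (0 : ℝ) < 1 / 21 by norm_num) 2 he,
    ev_small 0 (show (0 : ℝ) < η / 2 by linarith) 12 he,
    ev_small 6 hs1 (15488 * 4) (show 0 < e / 2 by linarith),
    ev_small 6 hη0 (15488 * 8) (show 0 < e / 2 by linarith),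
    ev_small 2 hθ 36 one_pos,
    ev_small 1 hθ 3 (Real.log_pos (show (1 : ℝ) < 1 + e by linarith))]
    with x hx1 hx2 hx3 hx4 hx5 hx6 hx7 Y lam hY hlam hlamx
  rw [pow_zero, one_mul] at hx2 hx3
  rw [pow_one] at hx7
  have hxe : (2 : ℝ) ≤ x := by
    have := Real.add_one_le_exp 1
    linarith
  have hx0 : 0 < x := by linarith
  have hxone : 1 ≤ x := by linarith
  set L := Real.log x with hL
  have hL1' : 1 ≤ L := by
    rw [hL, ← Real.log_exp 1]; exact Real.log_le_log (Real.exp_pos 1) hx1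
  have hlam0 : 0 < lam := by linarith
  have hxθ : 1 ≤ x ^ θ := Real.one_le_rpow hxone hθ.le
  have hY0 : 0 < Y := by linarith
  obtain ⟨k, hk1, hk2⟩ := near hxone
  obtain ⟨J, hJ1, hJ2⟩ := near (Real.one_le_rpow hxone (show (0 : ℝ) ≤ 20 / 21 by norm_num))
  obtain ⟨d, hd1, hd2⟩ := near (Real.one_le_rpow hxone hη0.le)
  obtain ⟨l, hl1, hl2⟩ := near (show 1 ≤ Y by linarith)
  have hkL := log_bound hx0 hk1
  have hJx : (2 : ℝ) ^ J ≤ x := hJ1.trans (by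
    calc x ^ (20 / 21 : ℝ) ≤ x ^ (1 : ℝ) := Real.rpow_le_rpow_of_exponent_le hxone (by norm_num)
      _ = x := Real.rpow_one x)
  have hJL := log_bound hx0 hJx
  have hN1 : ((⌊x⌋₊ : ℕ) : ℝ) ≤ x := Nat.floor_le hx0.le
  -- `R`
  set R : ℝ := (1 + 1 / (3 * Y)) ^ J with hR
  have hRle : R ≤ 1 + e := by
    have h1 : 1 + 1 / (3 * Y) ≤ Real.exp (1 / (3 * Y)) := by
      have := Real.add_one_le_exp (1 / (3 * Y)); linarith
    calc R ≤ (Real.exp (1 / (3 * Y))) ^ J := pow_le_pow_left₀ (by positivity) h1 J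
      _ = Real.exp (J * (1 / (3 * Y))) := (Real.exp_nat_mul _ _).symm
      _ ≤ Real.exp (Real.log (1 + e)) := by
          apply Real.exp_le_exp.2
          refine le_trans ?_ hx7
          have h2 : 1 / (3 * Y) ≤ x ^ (-θ) := by
            rw [Real.rpow_neg hx0.le, ← one_div]
            apply one_div_le_one_div_of_le (by positivity)
            linarith
          calc (J : ℝ) * (1 / (3 * Y)) ≤ (3 / 2 * L) * x ^ (-θ) := by
                apply mul_le_mul hJL h2 (by positivity) (by positivity)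
            _ ≤ 3 * (L * x ^ (-θ)) := by
                have : 0 ≤ L * x ^ (-θ) := by positivity
                linarith
      _ = 1 + e := Real.exp_log (by linarith)
  have hR1 : 1 ≤ R := one_le_pow₀ (by have : 0 < 1 / (3 * Y) := by positivity
                                      linarith)
  have hK : ⌊x⌋₊ < 2 ^ (k + 1) := by
    have : ((⌊x⌋₊ : ℕ) : ℝ) < 2 ^ (k + 1) := by linarith
    exact_mod_cast this
  have hKL : ((k + 1 : ℕ) : ℝ) ≤ 3 * L := by push_cast; linarith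
  have hM : 2 * ((k + 1) * (k + 1)) ≤ 2 ^ l := by
    have h1 : (2 : ℝ) * (((k + 1 : ℕ) : ℝ) * ((k + 1 : ℕ) : ℝ)) ≤ 2 ^ l := by
      have h2 : x ^ θ / 2 ≤ 2 ^ l := by rw [pow_succ] at hl2; linarith
      have h3 : 36 * L ^ 2 ≤ x ^ θ := by
        have h4 : 36 * (L ^ 2 * x ^ (-θ)) * x ^ θ ≤ 1 * x ^ θ :=
          mul_le_mul_of_nonneg_right hx6 (by positivity)
        have h5 : x ^ (-θ) * x ^ θ = 1 := by rw [← Real.rpow_add hx0]; simp
        calc 36 * L ^ 2 = 36 * (L ^ 2 * x ^ (-θ)) * x ^ θ := by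
              rw [mul_assoc 36, mul_assoc (L ^ 2), h5]; ring
          _ ≤ _ := by linarith
      have h6 : ((k + 1 : ℕ) : ℝ) * ((k + 1 : ℕ) : ℝ) ≤ 3 * L * (3 * L) :=
        mul_le_mul hKL hKL (Nat.cast_nonneg _) (by linarith)
      nlinarith
    exact_mod_cast h1
  have hfin := upper_fin (N := ⌊x⌋₊) (J := J) (d := d) (l := l) (K := k + 1) (lam := lam) (Y := Y)
    hlam0 hl1 (by rw [← hR]; linarith) hK hM
  rw [← hR] at hfin
  -- the first term
  set lam1 := lam / R with hlam1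
  have hlam1L : L1 ≤ lam1 := by
    rw [hlam1, le_div_iff₀ (by linarith)]
    nlinarith
  have hlam10 : 0 < lam1 := by linarith
  have hx21 : x ^ (20 / 21 : ℝ) = x * x ^ (-(1 / 21) : ℝ) := by
    rw [← Real.rpow_one_add' hx0.le (by norm_num)]; norm_num
  have hxm : 1 ≤ x * x ^ (-(1 / 21) : ℝ) := by
    rw [← hx21]; exact Real.one_le_rpow hxone (by norm_num)
  have hNJ : ((⌊x⌋₊ : ℕ) : ℝ) + 1 + 2 ^ J ≤ (1 + e) * x := by
    have h1 : (2 : ℝ) ^ J ≤ x * x ^ (-(1 / 21) : ℝ) := by rw [← hx21]; exact hJ1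
    nlinarith
  have hT1 : (((⌊x⌋₊ : ℕ) : ℝ) + 1 + 2 ^ J) * (1 - s J lam1) ≤ (C + e) * (1 + e) ^ 2 * (x / lam) := by
    have h1 : 1 - s J lam1 ≤ (C + e) * (1 + e) / lam := by
      have h2 := q_le_s J lam1
      have h3 := (hp lam1 hlam1L).2
      have h4 : (C + e) / lam1 ≤ (C + e) * (1 + e) / lam := by
        rw [hlam1, div_div_eq_mul_div]
        apply div_le_div_of_nonneg_right _ hlam0.le
        exact mul_le_mul_of_nonneg_left hRle (by linarith)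
      unfold p at h3
      linarith
    have h0 : 0 ≤ 1 - s J lam1 := by have := s_le_one J lam1; linarith
    calc _ ≤ ((1 + e) * x) * ((C + e) * (1 + e) / lam) :=
          mul_le_mul hNJ h1 h0 (by positivity)
      _ = _ := by ring
  have hxv : x ^ (-v) ≤ 1 / lam := by
    rw [Real.rpow_neg hx0.le, ← one_div]
    exact one_div_le_one_div_of_le hlam0 hlamx
  have hT2 : (((⌊x⌋₊ : ℕ) : ℝ) + 1 + 2 ^ J) * (b ^ J * Real.sqrt (2 ^ (d + 1))) ≤ e * (x / lam) := by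
    have h1 := bJ hxone hJ2
    have h2 : Real.sqrt (2 ^ (d + 1)) ≤ 2 * x ^ (η / 2) := by
      have h3 : (2 : ℝ) ^ (d + 1) ≤ (2 * x ^ (η / 2)) ^ 2 := by
        rw [mul_pow, ← Real.rpow_natCast (x ^ (η / 2)) 2, ← Real.rpow_mul hx0.le, pow_succ]
        have : η / 2 * ((2 : ℕ) : ℝ) = η := by push_cast; ring
        rw [this]
        have h5 : 0 < x ^ η := by positivity
        linarith
      calc Real.sqrt (2 ^ (d + 1)) ≤ Real.sqrt ((2 * x ^ (η / 2)) ^ 2) := Real.sqrt_le_sqrt h3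
        _ = 2 * x ^ (η / 2) := Real.sqrt_sq (by positivity)
    have hb0 := b_pos
    have h3 : x ^ (-(1 / 21) : ℝ) * x ^ (η / 2) = x ^ (-(η / 2)) * x ^ (-v) := by
      rw [← Real.rpow_add hx0, ← Real.rpow_add hx0]
      congr 1
      rw [hη]; ring
    have hNJ3 : ((⌊x⌋₊ : ℕ) : ℝ) + 1 + 2 ^ J ≤ 3 * x := by linarith
    calc _ ≤ (3 * x) * ((2 * x ^ (-(1 / 21) : ℝ)) * (2 * x ^ (η / 2))) := by
          apply mul_le_mul hNJ3 _ (by positivity) (by positivity)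
          exact mul_le_mul h1 h2 (Real.sqrt_nonneg _) (by positivity)
      _ = 12 * x ^ (-(η / 2)) * (x * x ^ (-v)) := by
          calc (3 * x) * ((2 * x ^ (-(1 / 21) : ℝ)) * (2 * x ^ (η / 2)))
              = 12 * x * (x ^ (-(1 / 21) : ℝ) * x ^ (η / 2)) := by ring
            _ = _ := by rw [h3]; ring
      _ ≤ e * (x * (1 / lam)) := by
          apply mul_le_mul hx3 _ (by positivity) he.le
          exact mul_le_mul_of_nonneg_left hxv hx0.le
      _ = _ := by ring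
  have hP : 8 * (((k + 1 : ℕ) : ℝ) * ((k + 1 : ℕ) : ℝ) + 2) ^ 2 * (((k + 1 : ℕ) : ℝ) + 1) ^ 2
      ≤ 15488 * L ^ 6 := by
    have h1 : ((k + 1 : ℕ) : ℝ) * ((k + 1 : ℕ) : ℝ) + 2 ≤ 11 * L ^ 2 := by
      have h6 : ((k + 1 : ℕ) : ℝ) * ((k + 1 : ℕ) : ℝ) ≤ 3 * L * (3 * L) :=
        mul_le_mul hKL hKL (Nat.cast_nonneg _) (by linarith)
      nlinarith
    have h2 : ((k + 1 : ℕ) : ℝ) + 1 ≤ 4 * L := by linarith
    calc _ ≤ 8 * (11 * L ^ 2) ^ 2 * (4 * L) ^ 2 := by gcongr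
      _ = _ := by ring
  have hrho := rho_pos
  have hT3 : 8 * (((k + 1 : ℕ) : ℝ) * ((k + 1 : ℕ) : ℝ) + 2) ^ 2 * (((k + 1 : ℕ) : ℝ) + 1) ^ 2
      * (2 ^ (k + 1) * rho ^ l + 2 * (2 ^ (k + 1) / 2 ^ d) / lam) ≤ e * (x / lam) := by
    have h1 : (2 : ℝ) ^ (k + 1) ≤ 2 * x := by rw [pow_succ]; linarith
    have h2 := rl hY0 hl2
    have h3 : Y ^ (-(1 / 21) : ℝ) ≤ x ^ (-(θ / 21)) := by
      calc Y ^ (-(1 / 21) : ℝ) ≤ (x ^ θ) ^ (-(1 / 21) : ℝ) :=
            Real.rpow_le_rpow_of_nonpos (by positivity) hY (by norm_num)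
        _ = _ := by rw [← Real.rpow_mul hx0.le]; congr 1; ring
    have h4 : x ^ (-(θ / 21)) = x ^ (-(θ / 21 - v)) * x ^ (-v) := by
      rw [← Real.rpow_add hx0]; congr 1; ring
    have h5 : (2 : ℝ) ^ (k + 1) / 2 ^ d ≤ 4 * (x * x ^ (-η)) := by
      rw [div_le_iff₀ (by positivity)]
      have h6 : x ^ η ≤ 2 * 2 ^ d := by rw [pow_succ] at hd2; linarith
      have h7 : x ^ (-η) * x ^ η = 1 := by rw [← Real.rpow_add hx0]; simp
      calc (2 : ℝ) ^ (k + 1) ≤ 2 * x := h1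
        _ = 2 * x * (x ^ (-η) * x ^ η) := by rw [h7, mul_one]
        _ ≤ 2 * x * (x ^ (-η) * (2 * 2 ^ d)) := by gcongr
        _ = _ := by ring
    have h8 : (2 : ℝ) ^ (k + 1) * rho ^ l ≤ 4 * x ^ (-(θ / 21 - v)) * (x / lam) := by
      calc (2 : ℝ) ^ (k + 1) * rho ^ l ≤ (2 * x) * (2 * x ^ (-(θ / 21))) := by
            apply mul_le_mul h1 (h2.trans (by linarith)) (by positivity) (by positivity)
        _ = 4 * x ^ (-(θ / 21 - v)) * (x * x ^ (-v)) := by rw [h4]; ring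
        _ ≤ 4 * x ^ (-(θ / 21 - v)) * (x * (1 / lam)) := by gcongr
        _ = _ := by ring
    have h9 : 2 * ((2 : ℝ) ^ (k + 1) / 2 ^ d) / lam ≤ 8 * x ^ (-η) * (x / lam) := by
      calc 2 * ((2 : ℝ) ^ (k + 1) / 2 ^ d) / lam ≤ 2 * (4 * (x * x ^ (-η))) / lam := by gcongr
        _ = _ := by ring
    calc _ ≤ 15488 * L ^ 6 * (4 * x ^ (-(θ / 21 - v)) * (x / lam) + 8 * x ^ (-η) * (x / lam)) := by
          apply mul_le_mul hP (add_le_add h8 h9) (by positivity) (by positivity)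
      _ = (15488 * 4 * (L ^ 6 * x ^ (-(θ / 21 - v))) + 15488 * 8 * (L ^ 6 * x ^ (-η))) * (x / lam) := by ring
      _ ≤ e * (x / lam) := by
          apply mul_le_mul_of_nonneg_right _ (by positivity)
          linarith
  calc _ ≤ _ := hfin
    _ ≤ (C + e) * (1 + e) ^ 2 * (x / lam) + e * (x / lam) + e * (x / lam) :=
        add_le_add (add_le_add hT1 hT2) hT3
    _ = _ := by ring

end Pool.Agent.W36.SL
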