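import Pool.Agent.W36.SL.Uni

/-! The uniform law, lower bound and conclusion. -/

set_option autoImplicit false

namespace Pool.Agent.W36.SL

open Finset Filter Topology Pool.Agent.Helper894.Collatz Pool.Agent.H828R3.Exc Pool.Agent.H377R2

open scoped Classical in
theorem lower_asym {θ' v : ℝ} (hθ' : θ' < 1) (hv : v < 1 / 21)
    {e : ℝ} (he : 0 < e) (he1 : e ≤ 1) (heC : 2 * e ≤ C) :
    ∃ L0 : ℝ, ∀ᶠ x in (atTop : Filter ℝ), ∀ Y lam : ℝ,
      0 ≤ Y → Y ≤ x ^ θ' → L0 ≤ lam → lam ≤ x ^ v →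
      ((1 - e) * ((C - 2 * e) / (1 + e)) - e) * (x / lam) ≤
      (((Icc 1 ⌊x⌋₊).filter (Exc lam Y)).card : ℝ) := by
  obtain ⟨L1, hL1, hp⟩ := p_ev he
  refine ⟨L1, ?_⟩
  set δ : ℝ := (1 - θ') / 2 with hδ
  have hδ0 : 0 < δ := by rw [hδ]; linarith
  have hs1 : 0 < 1 / 21 - v / 2 := by linarith
  filter_upwards [eventually_ge_atTop (Real.exp 1),
    ev_small 0 (show (0 : ℝ) < 1 / 21 by norm_num) 4 (show 0 < e / 2 by linarith),
    ev_small 0 hδ0 1 (show 0 < e / 2 by linarith),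
    ev_small 2 hδ0 27 he,
    ev_small 0 hs1 4 he]
    with x hx1 hx2 hx3 hx4 hx5 Y lam hY0 hY hlam hlamx
  rw [pow_zero, one_mul] at hx2 hx3 hx5
  rw [one_mul] at hx3
  have hxe : (2 : ℝ) ≤ x := by
    have := Real.add_one_le_exp 1
    linarith
  have hx0 : 0 < x := by linarith
  have hxone : 1 ≤ x := by linarith
  set L := Real.log x with hL
  have hL1' : 1 ≤ L := by
    rw [hL, ← Real.log_exp 1]; exact Real.log_le_log (Real.exp_pos 1) hx1
  have hlam0 : 0 < lam := by linarith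
  obtain ⟨J, hJ1, hJ2⟩ := near (Real.one_le_rpow hxone (show (0 : ℝ) ≤ 20 / 21 by norm_num))
  have hJx : (2 : ℝ) ^ J ≤ x := hJ1.trans (by
    calc x ^ (20 / 21 : ℝ) ≤ x ^ (1 : ℝ) := Real.rpow_le_rpow_of_exponent_le hxone (by norm_num)
      _ = x := Real.rpow_one x)
  have hJL := log_bound hx0 hJx
  have hN1 : ((⌊x⌋₊ : ℕ) : ℝ) ≤ x := Nat.floor_le hx0.le
  have hN2 : x < ((⌊x⌋₊ : ℕ) : ℝ) + 1 := Nat.lt_floor_add_one x
  set lam2 := lam * (1 + e) with hlam2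
  have hl2 : lam < lam2 := by rw [hlam2]; nlinarith
  have hlam20 : 0 < lam2 := by linarith
  set N0 := ⌊x ^ (1 - δ)⌋₊ + 1 with hN0
  have hxd : 0 < x ^ (1 - δ) := by positivity
  have hN0a : ((N0 : ℕ) : ℝ) ≤ x ^ (1 - δ) + 1 := by
    rw [hN0]; push_cast
    have := Nat.floor_le hxd.le
    linarith
  have hN0b : x ^ (1 - δ) ≤ ((N0 : ℕ) : ℝ) := by
    rw [hN0]; push_cast
    exact (Nat.lt_floor_add_one _).le
  have hfin := lower_fin (N := ⌊x⌋₊) (N0 := N0) (J := J) (lam := lam) (lam2 := lam2) (Y := Y)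
    hlam0 hl2 (Nat.succ_pos _) hY0
  have hx21 : x ^ (20 / 21 : ℝ) = x * x ^ (-(1 / 21) : ℝ) := by
    rw [← Real.rpow_one_add' hx0.le (by norm_num)]; norm_num
  have hxm : 1 ≤ x * x ^ (-(1 / 21) : ℝ) := by
    rw [← hx21]; exact Real.one_le_rpow hxone (by norm_num)
  have hxδ : x ^ (1 - δ) = x * x ^ (-δ) := by
    rw [sub_eq_add_neg, Real.rpow_add hx0, Real.rpow_one]
  have h2J : (2 : ℝ) ^ J ≤ x * x ^ (-(1 / 21) : ℝ) := by rw [← hx21]; exact hJ1
  have hmain : (1 - e) * x ≤ ((⌊x⌋₊ : ℕ) : ℝ) - N0 - 2 * 2 ^ J := by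
    rw [hxδ] at hN0a
    have h1 : x * x ^ (-δ) ≤ x * (e / 2) := mul_le_mul_of_nonneg_left hx3 hx0.le
    have h2 : x * (4 * x ^ (-(1 / 21) : ℝ)) ≤ x * (e / 2) := mul_le_mul_of_nonneg_left hx2 hx0.le
    nlinarith
  have hprob : (C - 2 * e) / (1 + e) / lam ≤ 1 - s J lam2 := by
    have h1 := s_sub_q J lam2 hlam20
    have h2 := (hp lam2 (by linarith)).1
    unfold p at h2
    have hs : 0 < Real.sqrt lam2 := Real.sqrt_pos.2 hlam20
    have h3 : b ^ J / Real.sqrt lam2 ≤ e / lam2 := by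
      rw [div_le_div_iff₀ hs hlam20]
      have h4 : lam2 = Real.sqrt lam2 * Real.sqrt lam2 := (Real.mul_self_sqrt hlam20.le).symm
      have h5 : Real.sqrt lam2 ≤ 2 * x ^ (v / 2) := by
        have h6 : lam2 ≤ (2 * x ^ (v / 2)) ^ 2 := by
          rw [mul_pow, ← Real.rpow_natCast (x ^ (v / 2)) 2, ← Real.rpow_mul hx0.le]
          have : v / 2 * ((2 : ℕ) : ℝ) = v := by push_cast; ring
          rw [this]
          have h7 : 0 < x ^ v := by positivity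
          calc lam2 = lam * (1 + e) := rfl
            _ ≤ x ^ v * 2 := mul_le_mul hlamx (by linarith) (by linarith) h7.le
            _ ≤ _ := by linarith
        calc Real.sqrt lam2 ≤ Real.sqrt ((2 * x ^ (v / 2)) ^ 2) := Real.sqrt_le_sqrt h6
          _ = 2 * x ^ (v / 2) := Real.sqrt_sq (by positivity)
      have h8 : b ^ J * Real.sqrt lam2 ≤ e := by
        calc b ^ J * Real.sqrt lam2 ≤ (2 * x ^ (-(1 / 21) : ℝ)) * (2 * x ^ (v / 2)) :=
              mul_le_mul (bJ hxone hJ2) h5 hs.le (by positivity)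
          _ = 4 * (x ^ (-(1 / 21) : ℝ) * x ^ (v / 2)) := by ring
          _ = 4 * x ^ (-(1 / 21 - v / 2)) := by
              rw [← Real.rpow_add hx0]; congr 2; ring
          _ ≤ e := hx5
      calc b ^ J * lam2 = (b ^ J * Real.sqrt lam2) * Real.sqrt lam2 := by
            rw [mul_assoc, Real.mul_self_sqrt hlam20.le]
        _ ≤ e * Real.sqrt lam2 := mul_le_mul_of_nonneg_right h8 hs.le
    have h9 : (C - 2 * e) / (1 + e) / lam = (C - e) / lam2 - e / lam2 := by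
      rw [hlam2]
      field_simp
      ring
    rw [h9]
    linarith
  have hT1 : (1 - e) * ((C - 2 * e) / (1 + e)) * (x / lam) ≤
      (((⌊x⌋₊ : ℕ) : ℝ) - N0 - 2 * 2 ^ J) * (1 - s J lam2) := by
    have h0 : 0 ≤ (C - 2 * e) / (1 + e) / lam := by
      apply div_nonneg (div_nonneg (by linarith) (by linarith)) hlam0.le
    have h1 : 0 ≤ (1 - e) * x := mul_nonneg (by linarith) hx0.le
    calc (1 - e) * ((C - 2 * e) / (1 + e)) * (x / lam)
        = ((1 - e) * x) * ((C - 2 * e) / (1 + e) / lam) := by ring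
      _ ≤ _ := mul_le_mul hmain hprob h0 (h1.trans hmain)
  have hT2 : (((⌊x⌋₊ : ℕ) : ℝ) + 1 + 2 ^ J) * ((J + 1) ^ 2 * ((Y / N0) / lam2)) ≤ e * (x / lam) := by
    have hN0R : (0 : ℝ) < N0 := by linarith
    have h1 : Y / N0 ≤ x ^ (-δ) := by
      rw [div_le_iff₀ hN0R]
      calc Y ≤ x ^ θ' := hY
        _ = x ^ (-δ) * x ^ (1 - δ) := by
            rw [← Real.rpow_add hx0]; congr 1; rw [hδ]; ring
        _ ≤ _ := mul_le_mul_of_nonneg_left hN0b (by positivity)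
    have h2 : (Y / N0) / lam2 ≤ x ^ (-δ) / lam := by
      apply div_le_div₀ (by positivity) h1 hlam0 hl2.le
    have h3 : ((J : ℝ) + 1) ^ 2 ≤ 9 * L ^ 2 := by
      have : ((J : ℝ) + 1) ≤ 3 * L := by linarith
      calc ((J : ℝ) + 1) ^ 2 ≤ (3 * L) ^ 2 := pow_le_pow_left₀ (by positivity) this 2
        _ = _ := by ring
    have h4 : ((⌊x⌋₊ : ℕ) : ℝ) + 1 + 2 ^ J ≤ 3 * x := by linarith
    calc _ ≤ (3 * x) * (9 * L ^ 2 * (x ^ (-δ) / lam)) := by gcongr
      _ = 27 * (L ^ 2 * x ^ (-δ)) * (x / lam) := by ring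
      _ ≤ e * (x / lam) := mul_le_mul_of_nonneg_right hx4 (by positivity)
  calc ((1 - e) * ((C - 2 * e) / (1 + e)) - e) * (x / lam)
      = (1 - e) * ((C - 2 * e) / (1 + e)) * (x / lam) - e * (x / lam) := by ring
    _ ≤ (((⌊x⌋₊ : ℕ) : ℝ) - N0 - 2 * 2 ^ J) * (1 - s J lam2) -
        (((⌊x⌋₊ : ℕ) : ℝ) + 1 + 2 ^ J) * ((J + 1) ^ 2 * ((Y / N0) / lam2)) := by linarith
    _ ≤ _ := hfin

open scoped Classical in
/-- THE UNIFORM LAW -/
theorem uniform {θ θ' v : ℝ} (hθ : 0 < θ) (hθθ' : θ ≤ θ') (hθ' : θ' < 1) (hv : v < θ / 21)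
    {ε : ℝ} (hε : 0 < ε) : ∃ L0 x0 : ℝ, ∀ x Y lam : ℝ, x0 ≤ x → x ^ θ ≤ Y → Y ≤ x ^ θ' →
      L0 ≤ lam → lam ≤ x ^ v →
      |(((Icc 1 ⌊x⌋₊).filter (Exc lam Y)).card : ℝ) - C * (x / lam)| ≤ ε * (x / lam) := by
  have hC := C_pos
  set e : ℝ := min (min 1 (C / 2)) (ε / (6 + 4 * C)) with hedef
  have he : 0 < e := by
    rw [hedef]
    refine lt_min (lt_min one_pos (by linarith)) (by positivity)
  have he1 : e ≤ 1 := (min_le_left _ _).trans (min_le_left _ _)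
  have heC : 2 * e ≤ C := by
    have : e ≤ C / 2 := (min_le_left _ _).trans (min_le_right _ _)
    linarith
  have heε : e * (6 + 4 * C) ≤ ε := by
    have : e ≤ ε / (6 + 4 * C) := min_le_right _ _
    rwa [le_div_iff₀ (by positivity)] at this
  obtain ⟨La, hA⟩ := upper_asym hθ (lt_of_le_of_lt hθθ' hθ') hv he he1
  obtain ⟨Lb, hB⟩ := lower_asym hθ' (show v < 1 / 21 by linarith) he he1 heC
  obtain ⟨x0, hx0⟩ := eventually_atTop.1 ((hA.and hB).and (eventually_ge_atTop 1))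
  refine ⟨max (max La Lb) 1, x0, fun x Y lam hx hY1 hY2 hlam1 hlam2 => ?_⟩
  obtain ⟨⟨h1, h2⟩, h3⟩ := hx0 x hx
  have hlam0 : 0 < lam := lt_of_lt_of_le one_pos (le_trans (le_max_right _ _) hlam1)
  have hxl : 0 ≤ x / lam := by positivity
  have g1 := h1 Y lam hY1 (le_trans (le_trans (le_max_left _ _) (le_max_left _ _)) hlam1) hlam2
  have g2 := h2 Y lam (le_trans (by positivity) hY1) hY2
    (le_trans (le_trans (le_max_right _ _) (le_max_left _ _)) hlam1) hlam2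
  have k1 : (C + e) * (1 + e) ^ 2 + 2 * e ≤ C + ε := by
    have h4 : e ^ 2 ≤ e := by nlinarith
    have h5 : (1 + e) ^ 2 ≤ 1 + 3 * e := by nlinarith
    have h6 : (C + e) * (1 + e) ^ 2 ≤ (C + e) * (1 + 3 * e) :=
      mul_le_mul_of_nonneg_left h5 (by linarith)
    nlinarith
  have k2 : C - ε ≤ (1 - e) * ((C - 2 * e) / (1 + e)) - e := by
    have h4 : (1 - e) * (C - 2 * e) ≤ (C - 2 * e) / (1 + e) := by
      rw [le_div_iff₀ (by linarith)]
      have : (1 - e) * (1 + e) ≤ 1 := by nlinarith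
      nlinarith
    have h5 : (1 - e) * ((1 - e) * (C - 2 * e)) ≤ (1 - e) * ((C - 2 * e) / (1 + e)) :=
      mul_le_mul_of_nonneg_left h4 (by linarith)
    have h6 : 0 ≤ e ^ 2 * (C - 2 * e) := mul_nonneg (sq_nonneg e) (by linarith)
    have h7 : (1 - e) * ((1 - e) * (C - 2 * e)) = C - 2 * e - 2 * (e * C) + 4 * e ^ 2
        + e ^ 2 * (C - 2 * e) := by ring
    have h8 : 0 ≤ e ^ 2 := sq_nonneg e
    have h9 : 0 ≤ e * C := by positivity
    have h10 : e * (6 + 4 * C) = 6 * e + 4 * (e * C) := by ring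
    linarith
  rw [abs_le]
  constructor
  · have := mul_le_mul_of_nonneg_right k2 hxl
    linarith
  · have := mul_le_mul_of_nonneg_right k1 hxl
    linarith

end Pool.Agent.W36.SL
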