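import Pool.Agent.W36.SL.Late

/-! Upper bound, finite form. -/

set_option autoImplicit false

namespace Pool.Agent.W36.SL

open Finset Pool.Agent.Helper894.Collatz Pool.Agent.H828R3.Exc Pool.Agent.H377R2 Pool.Agent.H319R2.Lln

/-- the trajectory exceeds `lam * n` before it reaches a value `≤ Y` -/
def Exc (lam Y : ℝ) (n : ℕ) : Prop := ∃ k, lam * n < (T^[k] n : ℕ) ∧ ∀ j ≤ k, Y < (T^[j] n : ℕ)

theorem MM_succ (k n : ℕ) : MM (k + 1) n = MM k n * (if (T^[k] n) % 2 = 0 then 1 / 2 else 3 / 2) := by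
  unfold MM
  rw [od_succ, pow_succ 2]
  rcases Nat.mod_two_eq_zero_or_one (T^[k] n) with h | h
  · rw [h, if_pos rfl, add_zero]; field_simp
  · rw [h, if_neg (by norm_num), pow_succ 3]; field_simp

theorem MM_zero (n : ℕ) : MM 0 n = 1 := by simp [MM, od]

theorem iter_ge (k n : ℕ) : MM k n * n ≤ (T^[k] n : ℕ) := by
  have h := iter_eq k n
  have h2 : (3 : ℝ) ^ od k n * n ≤ 2 ^ k * (T^[k] n : ℕ) := by
    have : 3 ^ od k n * n ≤ 2 ^ k * T^[k] n := by omega
    exact_mod_cast this
  unfold MM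
  rw [div_mul_eq_mul_div, div_le_iff₀ (by positivity)]
  linarith

theorem iter_le {Y : ℝ} (hY : 0 < Y) (n : ℕ) : ∀ k, (∀ j < k, Y ≤ (T^[j] n : ℕ)) →
    ((T^[k] n : ℕ) : ℝ) ≤ MM k n * n * (1 + 1 / (3 * Y)) ^ k := by
  intro k
  induction k with
  | zero => intro _; rw [MM_zero]; simp
  | succ k ih =>
    intro h
    have h1 := ih fun j hj => h j (by omega)
    have h2 := h k (by omega)
    rw [MM_succ, Function.iterate_succ_apply', pow_succ]
    set t := T^[k] n with ht
    have hr : (1 : ℝ) ≤ 1 + 1 / (3 * Y) := by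
      have : 0 < 1 / (3 * Y) := by positivity
      linarith
    have ht0 : (0 : ℝ) ≤ t := Nat.cast_nonneg t
    have hR : 0 ≤ MM k n * n * (1 + 1 / (3 * Y)) ^ k := ht0.trans h1
    rcases Nat.mod_two_eq_zero_or_one t with hp | hp
    · rw [if_pos hp]
      have h3 : 2 * T t = t := T_even hp
      have h4 : (2 : ℝ) * (T t : ℕ) = t := by exact_mod_cast h3
      calc ((T t : ℕ) : ℝ) = 1 / 2 * t := by linarith
        _ ≤ 1 / 2 * (MM k n * n * (1 + 1 / (3 * Y)) ^ k) := by linarith
        _ ≤ 1 / 2 * (MM k n * n * (1 + 1 / (3 * Y)) ^ k) * (1 + 1 / (3 * Y)) :=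
            le_mul_of_one_le_right (by positivity) hr
        _ = _ := by ring
    · rw [if_neg (by omega)]
      have h3 : 2 * T t = 3 * t + 1 := T_odd hp
      have h4 : (2 : ℝ) * (T t : ℕ) = 3 * t + 1 := by exact_mod_cast h3
      have h5 : (1 : ℝ) ≤ t * (1 / Y) := by
        rw [mul_one_div, le_div_iff₀ hY]; linarith
      calc ((T t : ℕ) : ℝ) = 3 / 2 * t + 1 / 2 := by linarith
        _ ≤ 3 / 2 * t + 1 / 2 * (t * (1 / Y)) := by linarith
        _ = 3 / 2 * t * (1 + 1 / (3 * Y)) := by field_simp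
        _ ≤ 3 / 2 * (MM k n * n * (1 + 1 / (3 * Y)) ^ k) * (1 + 1 / (3 * Y)) := by
            apply mul_le_mul_of_nonneg_right _ (by linarith)
            linarith
        _ = _ := by ring

open scoped Classical in
theorem card_MM_N (J N : ℕ) {mu : ℝ} (hmu : 0 < mu) :
    (((range N).filter fun n => mu ≤ MM J n).card : ℝ) ≤ (N + 2 ^ J) * (b ^ J / Real.sqrt mu) := by
  have h1 := (card_periodic (M := 2 ^ J) (by positivity) (fun n => mu ≤ MM J n)
    (fun x c => by rw [MM_shift le_rfl]) N).1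
  have h2 := card_MM J hmu
  have h2J : (0 : ℝ) < 2 ^ J := by positivity
  refine h1.trans ?_
  push_cast
  calc ((N : ℝ) / 2 ^ J + 1) * (((range (2 ^ J)).filter fun n => mu ≤ MM J n).card : ℝ)
      ≤ ((N : ℝ) / 2 ^ J + 1) * (2 ^ J * b ^ J / Real.sqrt mu) := by
        apply mul_le_mul_of_nonneg_left _ (by positivity)
        convert h2
    _ = _ := by field_simp

open scoped Classical in
theorem card_PP_N (J N : ℕ) (lam : ℝ) :
    (((range N).filter fun n => PP lam J n).card : ℝ) ≤ (N + 2 ^ J) * (1 - s J lam) ∧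
    ((N : ℝ) - 2 ^ J) * (1 - s J lam) ≤ (((range N).filter fun n => PP lam J n).card : ℝ) := by
  have h1 := card_periodic (M := 2 ^ J) (by positivity) (fun n => PP lam J n)
    (fun x c => PP_shift lam J x c) N
  have h2 := card_PP J lam
  have h2J : (0 : ℝ) < 2 ^ J := by positivity
  rw [h2] at h1
  push_cast at h1
  constructor
  · refine h1.1.trans (le_of_eq ?_); field_simp
  · refine le_trans (le_of_eq ?_) h1.2; field_simp

open scoped Classical in
theorem card_Dip_N (J N : ℕ) {mu lam : ℝ} (hmu : 0 ≤ mu) (hlam : 0 < lam) :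
    (((range N).filter fun n => Dip mu lam J n).card : ℝ) ≤
      (N + 2 ^ J) * ((J + 1) ^ 2 * (mu / lam)) := by
  have h1 := (card_periodic (M := 2 ^ J) (by positivity) (fun n => Dip mu lam J n)
    (fun x c => Dip_shift mu lam J x c) N).1
  have h2 := card_Dip J hmu hlam
  have h2J : (0 : ℝ) < 2 ^ J := by positivity
  push_cast at h1
  refine h1.trans ?_
  calc ((N : ℝ) / 2 ^ J + 1) * (((range (2 ^ J)).filter fun n => Dip mu lam J n).card : ℝ)
      ≤ ((N : ℝ) / 2 ^ J + 1) * ((J + 1) ^ 2 * (2 ^ J * mu / lam)) :=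
        mul_le_mul_of_nonneg_left h2 (by positivity)
    _ = _ := by field_simp

open scoped Classical in
/-- the upper bound -/
theorem upper_fin {N J d l K : ℕ} {lam Y : ℝ} (hlam : 0 < lam) (hY : 2 ^ l ≤ Y)
    (hr : (1 + 1 / (3 * Y)) ^ J ≤ 2) (hK : N < 2 ^ K) (hM : 2 * (K * K) ≤ 2 ^ l) :
    (((Icc 1 N).filter (Exc lam Y)).card : ℝ) ≤
      (N + 1 + 2 ^ J) * (1 - s J (lam / (1 + 1 / (3 * Y)) ^ J)) +
      (N + 1 + 2 ^ J) * (b ^ J * Real.sqrt (2 ^ (d + 1))) +
      8 * (K * K + 2) ^ 2 * (K + 1) ^ 2 * (2 ^ K * rho ^ l + 2 * (2 ^ K / 2 ^ d) / lam) := by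
  have hY0 : 0 < Y := lt_of_lt_of_le (by positivity) hY
  set R : ℝ := (1 + 1 / (3 * Y)) ^ J with hR
  have hr1 : (1 : ℝ) ≤ 1 + 1 / (3 * Y) := by
    have : 0 < 1 / (3 * Y) := by positivity
    linarith
  have hR1 : 1 ≤ R := one_le_pow₀ hr1
  have hR0 : 0 < R := by linarith
  set mu : ℝ := (2 ^ (d + 1))⁻¹ with hmu
  have hmu0 : 0 < mu := by positivity
  set lam1 := lam / R with hlam1
  -- the late part
  let S3 : ℕ → Finset ℕ := fun k => (range (2 ^ k)).filter fun n =>
    0 < n ∧ 2 ^ k ≤ 2 * n ∧ ∃ b, J < b ∧ MM J n < mu ∧ lam * n < (T^[b] n : ℕ) ∧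
      ∀ j ≤ b, Y < (T^[j] n : ℕ)
  have hsub : (Icc 1 N).filter (Exc lam Y) ⊆
      ((range (N + 1)).filter fun n => PP lam1 J n) ∪
      ((range (N + 1)).filter fun n => mu ≤ MM J n) ∪ (range (K + 1)).biUnion S3 := by
    intro n hn
    rw [mem_filter, mem_Icc] at hn
    obtain ⟨⟨hn1, hn2⟩, k0, hk1, hk2⟩ := hn
    have hnr : n ∈ range (N + 1) := mem_range.2 (by omega)
    have hn0 : (0 : ℝ) < n := by exact_mod_cast hn1
    rw [mem_union, mem_union]
    by_cases hJ : k0 ≤ J
    · left; left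
      rw [mem_filter]
      refine ⟨hnr, k0, hJ, ?_⟩
      rw [ge_iff]
      have h1 := iter_le hY0 n k0 fun j hj => (hk2 j hj.le).le
      have h2 : (1 + 1 / (3 * Y)) ^ k0 ≤ R := pow_le_pow_right₀ hr1 hJ
      have hM0 := MM_pos k0 n
      have h3 : lam * n < MM k0 n * n * R := by
        calc lam * n < (T^[k0] n : ℕ) := hk1
          _ ≤ MM k0 n * n * (1 + 1 / (3 * Y)) ^ k0 := h1
          _ ≤ _ := mul_le_mul_of_nonneg_left h2 (by positivity)
      rw [hlam1, div_le_iff₀ hR0]
      have h4 : lam * n < (MM k0 n * R) * n := by linarith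
      exact (lt_of_mul_lt_mul_right h4 hn0.le).le
    · by_cases hmuM : mu ≤ MM J n
      · left; right
        exact mem_filter.2 ⟨hnr, hmuM⟩
      · right
        rw [mem_biUnion]
        have hn0' : n ≠ 0 := by omega
        refine ⟨Nat.log 2 n + 1, ?_, ?_⟩
        · rw [mem_range]
          have : Nat.log 2 n < K := Nat.log_lt_of_lt_pow hn0' (by omega)
          omega
        · simp only [S3, mem_filter, mem_range]
          refine ⟨Nat.lt_pow_succ_log_self (by norm_num) _, by omega, ?_, k0, by omega,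
            not_le.1 hmuM, hk1, hk2⟩
          have := Nat.pow_log_le_self 2 hn0'
          rw [pow_succ]; omega
  have hcard : (((Icc 1 N).filter (Exc lam Y)).card : ℝ) ≤
      (((range (N + 1)).filter fun n => PP lam1 J n).card : ℝ) +
      (((range (N + 1)).filter fun n => mu ≤ MM J n).card : ℝ) +
      ∑ k ∈ range (K + 1), ((S3 k).card : ℝ) := by
    have h1 := (card_le_card hsub).trans ((card_union_le _ _).trans
      (Nat.add_le_add (card_union_le _ _) card_biUnion_le))
    exact_mod_cast h1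
  have c1 := (card_PP_N J (N + 1) lam1).1
  have c2 := card_MM_N J (N + 1) hmu0
  have hrho := rho_pos
  have c3 : ∀ k ∈ range (K + 1), ((S3 k).card : ℝ) ≤
      8 * (K * K + 2) ^ 2 * (K + 1) * (2 ^ K * rho ^ l + 2 * (2 ^ K / 2 ^ d) / lam) := by
    intro k hk
    rw [mem_range] at hk
    have hRHS : 0 ≤ 8 * ((K : ℝ) * K + 2) ^ 2 * (K + 1) * (2 ^ K * rho ^ l + 2 * (2 ^ K / 2 ^ d) / lam) := by
      positivity
    by_cases hlk : l ≤ k
    swap
    · have : S3 k = ∅ := by
        rw [eq_empty_iff_forall_notMem]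
        intro n hn
        simp only [S3, mem_filter, mem_range] at hn
        obtain ⟨h1, h2, h3, b, h4, h5, h6, h7⟩ := hn
        have h8 := h7 0 (by omega)
        simp only [Function.iterate_zero, id] at h8
        have h9 : (n : ℝ) < 2 ^ k := by exact_mod_cast h1
        have h10 : (2 : ℝ) ^ k ≤ 2 ^ l := pow_le_pow_right₀ (by norm_num) (by omega)
        linarith
      rw [this, card_empty, Nat.cast_zero]; exact hRHS
    -- the size of the dip
    have hdip : ∀ n ∈ S3 k, ((T^[J] n : ℕ) : ℝ) * 2 ^ d < 2 ^ k := by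
      intro n hn
      simp only [S3, mem_filter, mem_range] at hn
      obtain ⟨h1, h2, h3, b, h4, h5, h6, h7⟩ := hn
      have h9 : (n : ℝ) < 2 ^ k := by exact_mod_cast h1
      have h10 := iter_le hY0 n J fun j hj => (h7 j (by omega)).le
      have hM0 := MM_pos J n
      have hn0 : (0 : ℝ) < n := by exact_mod_cast h2
      calc ((T^[J] n : ℕ) : ℝ) * 2 ^ d ≤ MM J n * n * R * 2 ^ d := by
            apply mul_le_mul_of_nonneg_right h10 (by positivity)
        _ ≤ mu * n * 2 * 2 ^ d := by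
            apply mul_le_mul_of_nonneg_right _ (by positivity)
            apply mul_le_mul _ hr hR0.le (by positivity)
            exact mul_le_mul_of_nonneg_right h5.le hn0.le
        _ = n := by rw [hmu, pow_succ]; field_simp
        _ < _ := h9
    by_cases hdk : d ≤ k
    swap
    · have : S3 k = ∅ := by
        rw [eq_empty_iff_forall_notMem]
        intro n hn
        have h1 := hdip n hn
        simp only [S3, mem_filter, mem_range] at hn
        obtain ⟨h1', h2, h3, b, h4, h5, h6, h7⟩ := hn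
        have h8 := h7 J (by omega)
        have h9 : (0 : ℝ) < (T^[J] n : ℕ) := by linarith
        have h10 : (1 : ℝ) ≤ (T^[J] n : ℕ) := by exact_mod_cast h9
        have h11 : (2 : ℝ) ^ k ≤ 2 ^ d := pow_le_pow_right₀ (by norm_num) (by omega)
        have h12 : (0 : ℝ) < 2 ^ d := by positivity
        nlinarith
      rw [this, card_empty, Nat.cast_zero]; exact hRHS
    have hk2 : (0 : ℝ) < 2 ^ k := by positivity
    set V : ℝ := lam * (2 ^ k / 2) with hV
    have hV0 : 0 < V := by positivity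
    have hkK : (k : ℝ) ≤ K := by exact_mod_cast (by omega : k ≤ K)
    have h := late hlk (Nat.sub_le k d) (le_trans (Nat.mul_le_mul_left _ (Nat.mul_le_mul (by omega) (by omega))) hM) hV0 (S3 k) (by
      intro n hn
      have h1 := hdip n hn
      simp only [S3, mem_filter, mem_range] at hn
      obtain ⟨h1', h2, h3, b, h4, h5, h6, h7⟩ := hn
      refine ⟨h2, h1', J, b, h4.le, ?_, ?_, ?_⟩
      · have h8 : T^[J] n * 2 ^ d < 2 ^ (k - d) * 2 ^ d := by
          rw [← pow_add, Nat.sub_add_cancel hdk]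
          exact_mod_cast h1
        exact lt_of_mul_lt_mul_right h8 (Nat.zero_le _)
      · refine lt_of_le_of_lt ?_ h6
        rw [hV]
        apply mul_le_mul_of_nonneg_left _ hlam.le
        have : ((2 : ℝ) ^ k) ≤ 2 * n := by exact_mod_cast h3
        linarith
      · intro j hj
        have h8 := h7 j hj
        have h9 : (2 : ℝ) ^ l ≤ (T^[j] n : ℕ) := by linarith
        exact_mod_cast h9)
    refine h.trans ?_
    have e1 : (2 : ℝ) ^ k * 2 ^ (k - d) / V = 2 * (2 ^ k / 2 ^ d) / lam := by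
      have : (2 : ℝ) ^ (k - d) = 2 ^ k / 2 ^ d := by
        rw [eq_div_iff (by positivity), ← pow_add, Nat.sub_add_cancel hdk]
      rw [this, hV]
      field_simp
    rw [e1]
    have h2kK : (2 : ℝ) ^ k ≤ 2 ^ K := pow_le_pow_right₀ (by norm_num) (by omega)
    gcongr
  have c3' : ∑ k ∈ range (K + 1), ((S3 k).card : ℝ) ≤
      8 * (K * K + 2) ^ 2 * (K + 1) ^ 2 * (2 ^ K * rho ^ l + 2 * (2 ^ K / 2 ^ d) / lam) := by
    refine (sum_le_sum c3).trans (le_of_eq ?_)
    rw [sum_const, card_range, nsmul_eq_mul]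
    push_cast; ring
  have e2 : b ^ J / Real.sqrt mu = b ^ J * Real.sqrt (2 ^ (d + 1)) := by
    rw [hmu, Real.sqrt_inv, div_inv_eq_mul]
  rw [e2] at c2
  push_cast at c1 c2
  linarith

end Pool.Agent.W36.SL
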