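import Pool.Agent.W36.SL.Uni2

/-! The law with a fixed level `V`. -/

set_option autoImplicit false

namespace Pool.Agent.W36.SL

open Finset Filter Topology Pool.Agent.Helper894.Collatz

/-- the trajectory exceeds `V` before it reaches a value `≤ Y` -/
def EV (V Y : ℝ) (n : ℕ) : Prop := ∃ k, V < (T^[k] n : ℕ) ∧ ∀ j ≤ k, Y < (T^[j] n : ℕ)

open scoped Classical in
theorem card_diff (P : ℕ → Prop) {a b : ℕ} (hab : a ≤ b) :
    (((Icc 1 b).filter P).card : ℝ) - (((Icc 1 a).filter P).card : ℝ) =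
      (((Ioc a b).filter P).card : ℝ) := by
  have h : (Icc 1 b).filter P = (Icc 1 a).filter P ∪ (Ioc a b).filter P := by
    rw [← filter_union]
    congr 1
    ext n
    rw [mem_union, mem_Icc, mem_Icc, mem_Ioc]
    omega
  rw [h, card_union_of_disjoint]
  · push_cast; ring
  · apply disjoint_filter_filter
    rw [disjoint_left]
    intro n h1 h2
    rw [mem_Icc] at h1
    rw [mem_Ioc] at h2
    omega

theorem sum_id (m : ℕ) : ∑ j ∈ range m, (j : ℝ) = m * (m - 1) / 2 := by
  induction m with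
  | zero => simp
  | succ m ih => rw [sum_range_succ, ih]; push_cast; ring

open scoped Classical in
/-- THE LAW FOR THE LEVEL `V` -/
theorem vlaw {θ θ' v : ℝ} (hθ : 0 < θ) (hθθ' : θ ≤ θ') (hθ' : θ' < 1) (hv : v < θ / 21)
    {ε : ℝ} (hε : 0 < ε) : ∃ L0 x0 : ℝ, ∀ x Y V : ℝ, x0 ≤ x → x ^ θ ≤ Y → Y ≤ x ^ θ' →
      L0 * x ≤ V → V ≤ x ^ (1 + v) →
      |(((Icc 1 ⌊x⌋₊).filter (EV V Y)).card : ℝ) - C / 2 * (x ^ 2 / V)| ≤ ε * (x ^ 2 / V) := by
  have hC := C_pos
  obtain ⟨m, hm⟩ := exists_nat_gt (max 1 (C / ε))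
  have hm1 : (1 : ℝ) < m := lt_of_le_of_lt (le_max_left _ _) hm
  have hmC : C / ε < m := lt_of_le_of_lt (le_max_right _ _) hm
  have hm0 : (0 : ℝ) < m := by linarith
  set e : ℝ := ε / (4 * m) with he
  have he0 : 0 < e := by positivity
  set θ₂ : ℝ := (1 + θ') / 2 with hθ₂
  set v₂ : ℝ := (v + θ / 21) / 2 with hv₂
  have hv21 : v < v₂ := by rw [hv₂]; linarith
  have hv22 : v₂ < θ / 21 := by rw [hv₂]; linarith
  obtain ⟨L1, x1, h⟩ := uniform hθ (show θ ≤ θ₂ by rw [hθ₂]; linarith)
    (show θ₂ < 1 by rw [hθ₂]; linarith) hv22 he0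
  -- eventual conditions
  have hd1 : 0 < θ₂ - θ' := by rw [hθ₂]; linarith
  have hd2 : 0 < v₂ - v := by linarith
  have hgrow1 := (tendsto_rpow_atTop hd1).eventually (eventually_ge_atTop ((m : ℝ) ^ θ₂))
  have hgrow2 := (tendsto_rpow_atTop hd2).eventually
    (eventually_ge_atTop ((m : ℝ) * (m : ℝ) ^ (max v₂ 0)))
  obtain ⟨x0, hx0⟩ := eventually_atTop.1 ((hgrow1.and hgrow2).and
    (eventually_ge_atTop (max 1 (m * max x1 1))))
  refine ⟨max L1 1, x0, fun x Y V hx hY1 hY2 hV1 hV2 => ?_⟩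
  obtain ⟨⟨g1, g2⟩, g3⟩ := hx0 x hx
  have hxone : 1 ≤ x := le_trans (le_max_left _ _) g3
  have hx0' : 0 < x := by linarith
  have hxm : m * max x1 1 ≤ x := le_trans (le_max_right _ _) g3
  have hVx : x ≤ V := by
    have : 1 * x ≤ max L1 1 * x := mul_le_mul_of_nonneg_right (le_max_right _ _) hx0'.le
    linarith
  have hV0 : 0 < V := by linarith
  have hVL : L1 * x ≤ V := le_trans (mul_le_mul_of_nonneg_right (le_max_left _ _) hx0'.le) hV1
  have hVv : V / x ≤ x ^ v := by
    rw [div_le_iff₀ hx0', mul_comm]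
    calc V ≤ x ^ (1 + v) := hV2
      _ = x * x ^ v := by rw [Real.rpow_add hx0', Real.rpow_one]
  set z : ℕ → ℝ := fun j => j * x / m with hz
  have hzm : z m = x := by rw [hz]; simp only; field_simp
  have hz0 : z 0 = 0 := by rw [hz]; simp
  have hzs : ∀ j, z (j + 1) - z j = x / m := by
    intro j; rw [hz]; simp only; push_cast; field_simp; ring
  have hzmono : ∀ j, z j ≤ z (j + 1) := by
    intro j; have := hzs j; have : 0 < x / m := by positivity
    linarith [hzs j]
  have hznn : ∀ j, 0 ≤ z j := by intro j; rw [hz]; positivity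
  have hzlow : ∀ j, 1 ≤ j → x / m ≤ z j := by
    intro j hj
    rw [hz]; simp only
    apply div_le_div_of_nonneg_right _ hm0.le
    have : (1 : ℝ) ≤ j := by exact_mod_cast hj
    nlinarith
  have hzup : ∀ j, j ≤ m → z j ≤ x := by
    intro j hj
    rw [← hzm]; rw [hz]; simp only
    apply div_le_div_of_nonneg_right _ hm0.le
    have : (j : ℝ) ≤ m := by exact_mod_cast hj
    nlinarith
  -- the law at the points `z j` with `lam = V / z i`
  have key : ∀ i j, 1 ≤ i → i ≤ m → 1 ≤ j → j ≤ m →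
      |(((Icc 1 ⌊z j⌋₊).filter (Exc (V / z i) Y)).card : ℝ) - C * (z j * z i / V)| ≤
        e * (z j * z i / V) := by
    intro i j hi1 hi2 hj1 hj2
    have a1 := hzlow i hi1
    have a2 := hzup i hi2
    have a3 := hzlow j hj1
    have a4 := hzup j hj2
    have hxm0 : 0 < x / m := by positivity
    have hzi : 0 < z i := by linarith
    have hzj : 0 < z j := by linarith
    have hxm1 : max x1 1 ≤ x / m := by rw [le_div_iff₀ hm0]; linarith
    have hzj1 : 1 ≤ z j := le_trans (le_trans (le_max_right _ _) hxm1) a3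
    have hh := h (z j) Y (V / z i) (le_trans (le_trans (le_max_left _ _) hxm1) a3)
      (le_trans (Real.rpow_le_rpow hzj.le a4 hθ.le) hY1)
      (by
        refine hY2.trans ?_
        calc x ^ θ' = x ^ θ' * (m : ℝ) ^ θ₂ / (m : ℝ) ^ θ₂ := by field_simp
          _ ≤ x ^ θ' * x ^ (θ₂ - θ') / (m : ℝ) ^ θ₂ := by gcongr
          _ = x ^ θ₂ / (m : ℝ) ^ θ₂ := by rw [← Real.rpow_add hx0']; congr 2; ring
          _ = (x / m) ^ θ₂ := by rw [Real.div_rpow hx0'.le hm0.le]
          _ ≤ z j ^ θ₂ := Real.rpow_le_rpow hxm0.le a3 (by rw [hθ₂]; linarith))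
      (by
        rw [le_div_iff₀ hzi]
        rcases le_or_gt 0 L1 with h0 | h0
        · calc L1 * z i ≤ L1 * x := mul_le_mul_of_nonneg_left a2 h0
            _ ≤ V := hVL
        · nlinarith)
      (by
        calc V / z i ≤ V / (x / m) := div_le_div_of_nonneg_left hV0.le hxm0 a1
          _ = m * (V / x) := by field_simp
          _ ≤ m * x ^ v := mul_le_mul_of_nonneg_left hVv hm0.le
          _ ≤ z j ^ v₂ := by
              rcases le_or_gt 0 v₂ with h0 | h0
              · rw [max_eq_left h0] at g2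
                calc m * x ^ v = (m * (m : ℝ) ^ v₂) * x ^ v / (m : ℝ) ^ v₂ := by field_simp
                  _ ≤ x ^ (v₂ - v) * x ^ v / (m : ℝ) ^ v₂ := by gcongr
                  _ = x ^ v₂ / (m : ℝ) ^ v₂ := by rw [← Real.rpow_add hx0']; congr 2; ring
                  _ = (x / m) ^ v₂ := by rw [Real.div_rpow hx0'.le hm0.le]
                  _ ≤ z j ^ v₂ := Real.rpow_le_rpow hxm0.le a3 h0
              · exfalso
                have h1 : 1 ≤ V / x := by rw [le_div_iff₀ hx0']; linarith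
                have h2 : x ^ v ≤ 1 := Real.rpow_le_one_of_one_le_of_nonpos hxone (by linarith)
                rw [max_eq_right h0.le, Real.rpow_zero, mul_one] at g2
                have h3 : x ^ v ≤ x ^ (-(v₂ - v)) :=
                  Real.rpow_le_rpow_of_exponent_le hxone (by linarith)
                have h4 : x ^ (-(v₂ - v)) * x ^ (v₂ - v) = 1 := by
                  rw [← Real.rpow_add hx0']; simp
                have h5 : 0 < x ^ (-(v₂ - v)) := by positivity
                nlinarith)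
    have e1 : z j / (V / z i) = z j * z i / V := by field_simp
    rw [e1] at hh
    exact hh
  -- telescoping
  set f : ℕ → ℝ := fun j => (((Icc 1 ⌊z j⌋₊).filter (EV V Y)).card : ℝ) with hf
  have hf0 : f 0 = 0 := by rw [hf]; simp only; rw [hz0]; simp
  have hfm : (((Icc 1 ⌊x⌋₊).filter (EV V Y)).card : ℝ) = ∑ j ∈ range m, (f (j + 1) - f j) := by
    rw [sum_range_sub, hf0, sub_zero, hf]
    simp only
    rw [hzm]
  have hfl : ∀ j, ⌊z j⌋₊ ≤ ⌊z (j + 1)⌋₊ := fun j => Nat.floor_mono (hzmono j)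
  have hXV : 0 ≤ x ^ 2 / V := by positivity
  have up : ∀ j ∈ range m, f (j + 1) - f j ≤ (C * ((j + 1) / m ^ 2) + 2 * e) * (x ^ 2 / V) := by
    intro j hj
    rw [mem_range] at hj
    have hz1 : 0 < z (j + 1) := by
      have := hzlow (j + 1) (by omega)
      have : 0 < x / m := by positivity
      linarith
    have h1 : f (j + 1) - f j ≤ (((Icc 1 ⌊z (j + 1)⌋₊).filter (Exc (V / z (j + 1)) Y)).card : ℝ) -
        (((Icc 1 ⌊z j⌋₊).filter (Exc (V / z (j + 1)) Y)).card : ℝ) := by
      rw [hf]; simp only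
      rw [card_diff _ (hfl j), card_diff _ (hfl j)]
      have : (Ioc ⌊z j⌋₊ ⌊z (j + 1)⌋₊).filter (EV V Y) ⊆
          (Ioc ⌊z j⌋₊ ⌊z (j + 1)⌋₊).filter (Exc (V / z (j + 1)) Y) := by
        intro n hn
        rw [mem_filter, mem_Ioc] at hn ⊢
        obtain ⟨⟨hn1, hn2⟩, k, hk1, hk2⟩ := hn
        refine ⟨⟨hn1, hn2⟩, k, lt_of_le_of_lt ?_ hk1, hk2⟩
        have : (n : ℝ) ≤ z (j + 1) := by
          have h3 : (n : ℝ) ≤ (⌊z (j + 1)⌋₊ : ℝ) := by exact_mod_cast hn2
          exact h3.trans (Nat.floor_le hz1.le)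
        rw [div_mul_eq_mul_div, div_le_iff₀ hz1]
        exact mul_le_mul_of_nonneg_left this hV0.le
      exact_mod_cast card_le_card this
    have h2 := (abs_le.1 (key (j + 1) (j + 1) (by omega) (by omega) (by omega) (by omega))).2
    have h3 : C * (z j * z (j + 1) / V) - e * (z j * z (j + 1) / V) ≤
        (((Icc 1 ⌊z j⌋₊).filter (Exc (V / z (j + 1)) Y)).card : ℝ) := by
      rcases Nat.eq_zero_or_pos j with h0 | h0
      · subst h0
        rw [hz0]; simp
      · have := (abs_le.1 (key (j + 1) j (by omega) (by omega) (by omega) (by omega))).1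
        linarith
    have e1 : C * (z (j + 1) * z (j + 1) / V) - C * (z j * z (j + 1) / V)
        = C * ((j + 1) / m ^ 2) * (x ^ 2 / V) := by
      have : C * (z (j + 1) * z (j + 1) / V) - C * (z j * z (j + 1) / V)
          = C * ((z (j + 1) - z j) * z (j + 1)) / V := by ring
      rw [this, hzs, hz]; simp only; push_cast; field_simp
    have b1 : z (j + 1) * z (j + 1) / V ≤ x ^ 2 / V := by
      apply div_le_div_of_nonneg_right _ hV0.le
      have := hzup (j + 1) (by omega)
      nlinarith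
    have b2 : z j * z (j + 1) / V ≤ x ^ 2 / V := by
      apply div_le_div_of_nonneg_right _ hV0.le
      have h4 := hzup (j + 1) (by omega)
      have h5 := hzup j (by omega)
      have h6 := hznn j
      nlinarith
    have c1 := mul_le_mul_of_nonneg_left b1 he0.le
    have c2 := mul_le_mul_of_nonneg_left b2 he0.le
    linarith
  have low : ∀ j ∈ range m, (C * (j / m ^ 2) - 2 * e) * (x ^ 2 / V) ≤ f (j + 1) - f j := by
    intro j hj
    rw [mem_range] at hj
    rcases Nat.eq_zero_or_pos j with h0 | h0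
    · subst h0
      have h1 : 0 ≤ f (0 + 1) - f 0 := by
        rw [hf]; simp only
        rw [card_diff _ (hfl 0)]
        exact Nat.cast_nonneg _
      have : (C * (((0 : ℕ) : ℝ) / m ^ 2) - 2 * e) * (x ^ 2 / V) ≤ 0 := by
        have h4 : (C * (((0 : ℕ) : ℝ) / m ^ 2) - 2 * e) = -(2 * e) := by simp
        rw [h4]
        nlinarith
      linarith
    have hz1 : 0 < z j := by
      have := hzlow j h0
      have : 0 < x / m := by positivity
      linarith
    have h1 : (((Icc 1 ⌊z (j + 1)⌋₊).filter (Exc (V / z j) Y)).card : ℝ) -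
        (((Icc 1 ⌊z j⌋₊).filter (Exc (V / z j) Y)).card : ℝ) ≤ f (j + 1) - f j := by
      rw [hf]; simp only
      rw [card_diff _ (hfl j), card_diff _ (hfl j)]
      have : (Ioc ⌊z j⌋₊ ⌊z (j + 1)⌋₊).filter (Exc (V / z j) Y) ⊆
          (Ioc ⌊z j⌋₊ ⌊z (j + 1)⌋₊).filter (EV V Y) := by
        intro n hn
        rw [mem_filter, mem_Ioc] at hn ⊢
        obtain ⟨⟨hn1, hn2⟩, k, hk1, hk2⟩ := hn
        refine ⟨⟨hn1, hn2⟩, k, lt_of_le_of_lt ?_ hk1, hk2⟩
        have h3 : z j < n := (Nat.floor_lt hz1.le).1 hn1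
        rw [div_mul_eq_mul_div, le_div_iff₀ hz1]
        exact mul_le_mul_of_nonneg_left h3.le hV0.le
      exact_mod_cast card_le_card this
    have h2 := (abs_le.1 (key j (j + 1) (by omega) (by omega) (by omega) (by omega))).1
    have h3 := (abs_le.1 (key j j (by omega) (by omega) (by omega) (by omega))).2
    have e1 : C * (z (j + 1) * z j / V) - C * (z j * z j / V)
        = C * (j / m ^ 2) * (x ^ 2 / V) := by
      have : C * (z (j + 1) * z j / V) - C * (z j * z j / V)
          = C * ((z (j + 1) - z j) * z j) / V := by ring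
      rw [this, hzs, hz]; simp only; field_simp
    have b1 : z (j + 1) * z j / V ≤ x ^ 2 / V := by
      apply div_le_div_of_nonneg_right _ hV0.le
      have h4 := hzup (j + 1) (by omega)
      have h5 := hzup j (by omega)
      have h6 := hznn (j + 1)
      nlinarith
    have b2 : z j * z j / V ≤ x ^ 2 / V := by
      apply div_le_div_of_nonneg_right _ hV0.le
      have h5 := hzup j (by omega)
      nlinarith
    have c1 := mul_le_mul_of_nonneg_left b1 he0.le
    have c2 := mul_le_mul_of_nonneg_left b2 he0.le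
    linarith
  have sup := sum_le_sum up
  have slow := sum_le_sum low
  rw [← hfm, ← sum_mul] at sup slow
  have s0 : ∑ j ∈ range m, (j : ℝ) = m * (m - 1) / 2 := sum_id m
  have s1 : ∑ j ∈ range m, (C * (((j : ℝ) + 1) / m ^ 2) + 2 * e) ≤ C / 2 + ε := by
    rw [sum_add_distrib, ← mul_sum, ← sum_div, sum_add_distrib, s0, sum_const, sum_const, card_range,
      nsmul_eq_mul, nsmul_eq_mul]
    have e2 : (m : ℝ) * (2 * e) = ε / 2 := by rw [he]; field_simp; ring
    have e3 : C * (((m : ℝ) * (m - 1) / 2 + m * 1) / m ^ 2) = C / 2 + C / (2 * m) := by field_simp; ring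
    have e4 : C / (2 * m) ≤ ε / 2 := by
      rw [div_le_div_iff₀ (by positivity) (by norm_num)]
      rw [div_lt_iff₀ hε] at hmC
      linarith
    rw [e2, e3]; linarith
  have s2 : C / 2 - ε ≤ ∑ j ∈ range m, (C * ((j : ℝ) / m ^ 2) - 2 * e) := by
    rw [sum_sub_distrib, ← mul_sum, ← sum_div, s0, sum_const, card_range, nsmul_eq_mul]
    have e2 : (m : ℝ) * (2 * e) = ε / 2 := by rw [he]; field_simp; ring
    have e3 : C * (((m : ℝ) * (m - 1) / 2) / m ^ 2) = C / 2 - C / (2 * m) := by field_simp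
    have e4 : C / (2 * m) ≤ ε / 2 := by
      rw [div_le_div_iff₀ (by positivity) (by norm_num)]
      rw [div_lt_iff₀ hε] at hmC
      linarith
    rw [e2, e3]; linarith
  rw [abs_le]
  constructor
  · have := mul_le_mul_of_nonneg_right s2 hXV
    linarith
  · have := mul_le_mul_of_nonneg_right s1 hXV
    linarith

end Pool.Agent.W36.SL
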