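import Pool.Agent.W36.SL.Lap

/-! The zeros of the characteristic function and regularity. -/

set_option autoImplicit false

namespace Pool.Agent.W36.SL

open MeasureTheory Filter Topology Set

theorem pow_ne {a b : ℕ} (ha : a ≠ 0) : (3 : ℕ) ^ a ≠ 2 ^ b := by
  intro h
  have h1 : Odd ((3 : ℕ) ^ a) := Odd.pow (by decide)
  rcases Nat.eq_zero_or_pos b with hb | hb
  · rw [hb, pow_zero] at h
    have : 1 < (3 : ℕ) ^ a := Nat.one_lt_pow ha (by norm_num)
    omega
  · rw [h] at h1
    have h2 : Even ((2 : ℕ) ^ b) := (Nat.even_pow.2 ⟨by decide, by omega⟩)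
    exact (Nat.not_even_iff_odd.2 h1) h2

theorem exp_l1_rpow (x : ℝ) : Real.exp (-x * l1) = (1 + (-(1 / 3) : ℝ)) ^ x := by
  rw [Real.rpow_def_of_pos (by norm_num)]
  congr 1
  unfold l1
  have : Real.log (1 + -(1 / 3 : ℝ)) = - Real.log (3 / 2) := by
    rw [← Real.log_inv]; norm_num
  rw [this]; ring

theorem exp_l2_rpow (x : ℝ) : Real.exp (x * l2) = (1 + (1 : ℝ)) ^ x := by
  rw [Real.rpow_def_of_pos (by norm_num)]
  congr 1
  unfold l2
  have : Real.log (1 + (1 : ℝ)) = Real.log 2 := by norm_num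
  rw [this]; ring

theorem D_ne {z : ℂ} (h0 : 0 ≤ z.re) (h1 : z.re < 1) (hz : z ≠ 0) : D z ≠ 0 := by
  intro hD
  unfold D at hD
  have e : 3 / 4 * Complex.exp (-z * l1) + 1 / 4 * Complex.exp (z * l2) = 1 := by
    linear_combination -hD
  rcases h0.lt_or_eq with h | h
  · have n1 : ‖(3 / 4 : ℂ) * Complex.exp (-z * l1)‖ = 3 / 4 * Real.exp (-z.re * l1) := by
      rw [norm_mul, Complex.norm_exp]
      congr 1
      · norm_num
      · simp
    have n2 : ‖(1 / 4 : ℂ) * Complex.exp (z * l2)‖ = 1 / 4 * Real.exp (z.re * l2) := by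
      rw [norm_mul, Complex.norm_exp]
      congr 1
      · norm_num
      · simp
    have n3 := norm_add_le ((3 / 4 : ℂ) * Complex.exp (-z * l1)) ((1 / 4 : ℂ) * Complex.exp (z * l2))
    rw [e, norm_one, n1, n2, exp_l1_rpow, exp_l2_rpow] at n3
    have b1 := _root_.rpow_one_add_lt_one_add_mul_self (s := -(1 / 3)) (by norm_num) (by norm_num) h h1
    have b2 := _root_.rpow_one_add_lt_one_add_mul_self (s := 1) (by norm_num) (by norm_num) h h1
    generalize (1 + -(1 / 3 : ℝ)) ^ z.re = X at b1 n3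
    generalize (1 + (1 : ℝ)) ^ z.re = Y at b2 n3
    linarith
  · have hre := congrArg Complex.re e
    rw [Complex.add_re] at hre
    have r1 : ((3 / 4 : ℂ) * Complex.exp (-z * l1)).re = 3 / 4 * Real.cos (z.im * l1) := by
      have : (3 / 4 : ℂ) = ((3 / 4 : ℝ) : ℂ) := by push_cast; ring
      rw [this, Complex.re_ofReal_mul, Complex.exp_re]
      simp [← h]
    have r2 : ((1 / 4 : ℂ) * Complex.exp (z * l2)).re = 1 / 4 * Real.cos (z.im * l2) := by
      have : (1 / 4 : ℂ) = ((1 / 4 : ℝ) : ℂ) := by push_cast; ring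
      rw [this, Complex.re_ofReal_mul, Complex.exp_re]
      simp [← h]
    rw [r1, r2, Complex.one_re] at hre
    have c1 := Real.cos_le_one (z.im * l1)
    have c2 := Real.cos_le_one (z.im * l2)
    have d1 : Real.cos (z.im * l1) = 1 := by linarith
    have d2 : Real.cos (z.im * l2) = 1 := by linarith
    obtain ⟨n, hn⟩ := (Real.cos_eq_one_iff _).1 d1
    obtain ⟨m, hm⟩ := (Real.cos_eq_one_iff _).1 d2
    have hy : z.im ≠ 0 := by
      intro hy
      exact hz (Complex.ext (by simp [← h]) (by simp [hy]))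
    have hpi : (2 * Real.pi) ≠ 0 := by positivity
    have hm0 : m ≠ 0 := by
      intro hm0
      rw [hm0] at hm
      simp only [Int.cast_zero, zero_mul] at hm
      have := mul_ne_zero hy l2_pos.ne'
      exact this hm.symm
    have h2 : (m : ℝ) * l1 = n * l2 := by
      have : (2 * Real.pi) * (m * l1) = (2 * Real.pi) * (n * l2) := by
        calc (2 * Real.pi) * (m * l1) = (m * (2 * Real.pi)) * l1 := by ring
          _ = z.im * l2 * l1 := by rw [hm]
          _ = (z.im * l1) * l2 := by ring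
          _ = (n * (2 * Real.pi)) * l2 := by rw [hn]
          _ = _ := by ring
      exact mul_left_cancel₀ hpi this
    have h3 : l1 = Real.log 3 - Real.log 2 := by
      unfold l1; rw [Real.log_div (by norm_num) (by norm_num)]
    have h4 : (m : ℝ) * Real.log 3 = ((m + n : ℤ) : ℝ) * Real.log 2 := by
      rw [h3] at h2; unfold l2 at h2; push_cast; linarith
    have h5 : (m.natAbs : ℝ) * Real.log 3 = ((m + n).natAbs : ℝ) * Real.log 2 := by
      have := congrArg abs h4
      rw [abs_mul, abs_mul, abs_of_pos (Real.log_pos (by norm_num : (1:ℝ) < 3)),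
        abs_of_pos (Real.log_pos (by norm_num : (1:ℝ) < 2))] at this
      rw [Nat.cast_natAbs, Nat.cast_natAbs]
      push_cast at this ⊢
      exact this
    rw [← Real.log_pow, ← Real.log_pow] at h5
    have h6 : (3 : ℝ) ^ m.natAbs = 2 ^ (m + n).natAbs :=
      Real.log_injOn_pos (mem_Ioi.2 (by positivity)) (mem_Ioi.2 (by positivity)) h5
    exact pow_ne (Int.natAbs_ne_zero.2 hm0) (by exact_mod_cast h6)

theorem F_int_diff (a b : ℝ) (z₀ : ℂ) : DifferentiableAt ℂ (fun z => ∫ u in a..b, F z u) z₀ := by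
  have h := intervalIntegral.hasDerivAt_integral_of_dominated_loc_of_deriv_le
    (F := F) (F' := fun z u => (h u : ℂ) * (-u * Complex.exp (-z * u))) (x₀ := z₀)
    (s := Metric.ball z₀ 1) (a := a) (b := b) (μ := volume)
    (bound := fun u => |u| * Real.exp ((|z₀.re| + 1) * |u|)) (Metric.ball_mem_nhds _ one_pos)
    (Eventually.of_forall fun z => (F_meas z).aestronglyMeasurable) (F_iint z₀ a b)
    (by
      have := h_meas
      exact Measurable.aestronglyMeasurable (by fun_prop))
    (Eventually.of_forall fun u _ z hz => ?_)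
    ((by fun_prop : Continuous fun u : ℝ => |u| * Real.exp ((|z₀.re| + 1) * |u|)).intervalIntegrable _ _)
    (Eventually.of_forall fun u _ z _ => ?_)
  · exact h.2.differentiableAt
  · rw [norm_mul, norm_mul, norm_neg, Complex.norm_real, Complex.norm_real, Complex.norm_exp,
      Real.norm_of_nonneg (h_nonneg u), Real.norm_eq_abs]
    have e : (-z * (u : ℂ)).re = -z.re * u := by simp
    rw [e]
    have hz1 : |z.re - z₀.re| < 1 := by
      have := Complex.abs_re_le_norm (z - z₀)
      rw [Complex.sub_re] at this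
      rw [Metric.mem_ball, dist_eq_norm] at hz
      linarith
    have hz2 : |z.re| ≤ |z₀.re| + 1 := by
      have := abs_add_le (z.re - z₀.re) z₀.re
      rw [sub_add_cancel] at this
      linarith
    have hz3 : -z.re * u ≤ (|z₀.re| + 1) * |u| := by
      calc -z.re * u ≤ |(-z.re) * u| := le_abs_self _
        _ = |z.re| * |u| := by rw [abs_mul, abs_neg]
        _ ≤ _ := mul_le_mul_of_nonneg_right hz2 (abs_nonneg _)
    calc h u * (|u| * Real.exp (-z.re * u)) ≤ 1 * (|u| * Real.exp ((|z₀.re| + 1) * |u|)) := by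
          apply mul_le_mul (h_le_one u) _ (by positivity) zero_le_one
          exact mul_le_mul_of_nonneg_left (Real.exp_le_exp.2 hz3) (abs_nonneg _)
      _ = _ := one_mul _
  · unfold F
    have h1 : HasDerivAt (fun z : ℂ => -z * u) (-u : ℂ) z := by
      simpa using (hasDerivAt_id z).neg.mul_const (u : ℂ)
    have h2 := (h1.cexp).const_mul (h u : ℂ)
    refine h2.congr_deriv ?_
    ring

theorem E1_diff (z : ℂ) : DifferentiableAt ℂ E1 z := F_int_diff _ _ z
theorem E2_diff (z : ℂ) : DifferentiableAt ℂ E2 z := F_int_diff _ _ z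
theorem N_diff (z : ℂ) : DifferentiableAt ℂ N z := by
  have h1 := E1_diff z
  have h2 := E2_diff z
  unfold N
  fun_prop
theorem D_diff (z : ℂ) : DifferentiableAt ℂ D z := by
  unfold D
  fun_prop

/-- `α = (3/4) log (3/2) - (1/4) log 2` -/
noncomputable def al : ℝ := 3 / 4 * l1 - 1 / 4 * l2

theorem al_eq : al = 1 / 4 * Real.log (27 / 16) := by
  unfold al l1 l2
  have h1 : Real.log (27 / 16) = 3 * Real.log (3 / 2) - Real.log 2 := by
    have : (27 / 16 : ℝ) = (3 / 2) ^ 3 / 2 := by norm_num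
    rw [this, Real.log_div (by norm_num) (by norm_num), Real.log_pow]
    push_cast; ring
  rw [h1]; ring

theorem al_pos : 0 < al := by
  rw [al_eq]
  have := Real.log_pos (show (1 : ℝ) < 27 / 16 by norm_num)
  positivity

theorem D_zero : D 0 = 0 := by unfold D; simp; norm_num

theorem D_deriv : deriv D 0 = al := by
  have h1 : HasDerivAt (fun z : ℂ => Complex.exp (-z * l1)) (-l1 : ℂ) 0 := by
    have : HasDerivAt (fun z : ℂ => -z * l1) (-l1 : ℂ) 0 := by
      simpa using (hasDerivAt_id (0 : ℂ)).neg.mul_const (l1 : ℂ)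
    simpa using this.cexp
  have h2 : HasDerivAt (fun z : ℂ => Complex.exp (z * l2)) (l2 : ℂ) 0 := by
    have : HasDerivAt (fun z : ℂ => z * l2) (l2 : ℂ) 0 := by
      simpa using (hasDerivAt_id (0 : ℂ)).mul_const (l2 : ℂ)
    simpa using this.cexp
  have h3 := ((h1.const_mul (3 / 4)).const_sub 1).sub (h2.const_mul (1 / 4))
  have h4 : HasDerivAt D (al : ℂ) 0 := by
    refine (h3.congr_deriv ?_)
    unfold al; push_cast; ring
  exact h4.deriv

/-- `D(z) / z` -/
noncomputable def D1 : ℂ → ℂ := dslope D 0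

theorem D1_zero : D1 0 = al := by unfold D1; rw [dslope_same, D_deriv]
theorem D1_ne {z : ℂ} (hz : z ≠ 0) : D1 z = D z / z := by
  unfold D1
  rw [dslope_of_ne _ hz, slope_def_field, D_zero, sub_zero, sub_zero]
theorem D1_diff (z : ℂ) : DifferentiableAt ℂ D1 z := by
  have h : DifferentiableOn ℂ (dslope D 0) univ :=
    (Complex.differentiableOn_dslope univ_mem).2 fun w _ => (D_diff w).differentiableWithinAt
  exact (h z (mem_univ z)).differentiableAt univ_mem
theorem D1_ne_zero {z : ℂ} (h0 : 0 ≤ z.re) (h1 : z.re < 1) : D1 z ≠ 0 := by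
  by_cases hz : z = 0
  · rw [hz, D1_zero]; exact_mod_cast al_pos.ne'
  · rw [D1_ne hz]; exact div_ne_zero (D_ne h0 h1 hz) hz

/-- `z * (Laplace transform of g)` -/
noncomputable def Mz (z : ℂ) : ℂ := N z / (D1 z * (1 + z))

theorem one_add_ne {z : ℂ} (h0 : 0 ≤ z.re) : 1 + z ≠ 0 := by
  intro h
  have := congrArg Complex.re h
  simp only [Complex.add_re, Complex.one_re, Complex.zero_re] at this
  linarith

theorem Mz_diff {z : ℂ} (h0 : 0 ≤ z.re) (h1 : z.re < 1) : DifferentiableAt ℂ Mz z := by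
  unfold Mz
  exact (N_diff z).div ((D1_diff z).mul (by fun_prop)) (mul_ne_zero (D1_ne_zero h0 h1) (one_add_ne h0))

/-- the constant -/
noncomputable def A0 : ℝ := (1 / 4 - 1 / 4 * ∫ v in (0)..l2, h v) / al

theorem N_zero : N 0 = ((1 / 4 - 1 / 4 * ∫ v in (0)..l2, h v : ℝ) : ℂ) := by
  unfold N E1 E2 F
  simp only [neg_zero, zero_mul, Complex.exp_zero, mul_one]
  rw [intervalIntegral.integral_ofReal, intervalIntegral.integral_ofReal]
  have : ∫ v in (-l1)..0, h v = 1 / 3 := by
    have h1 : ∫ v in (-l1)..0, h v = ∫ v in (-l1)..0, Real.exp v := by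
      refine intervalIntegral.integral_congr fun v hv => ?_
      rw [uIcc_of_le (by have := l1_pos; linarith)] at hv
      exact h_neg hv.2
    rw [h1, integral_exp, Real.exp_zero, Real.exp_neg, exp_l1]
    norm_num
  rw [this]
  push_cast
  ring

theorem Mz_zero : Mz 0 = A0 := by
  unfold Mz A0
  rw [N_zero, D1_zero]
  push_cast
  ring

end Pool.Agent.W36.SL
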